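import Mathlib
import Pool.Agent.Helper66.PFDense
import Pool.Agent.Helper52.TameBase

/-!
Subfamilies of a point-finite Borel-additive family with at most continuum many members that are
good of class `β`, and the evaluation of a family of Borel sets of another space at a point.
-/

set_option autoImplicit false

open Set Cardinal Ordinal TopologicalSpace

universe u v w

namespace Pool.Agent.Helper66.AO

open Pool.Agent.Helper66.PF

/-- The indices whose code extends `σ`. -/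
def Cyl {J : Type u} (r : J → (ℕ → Bool)) (σ : Σ n : ℕ, (Fin n → Bool)) : Set J :=
  {i | ini (r i) σ.1 = σ}

theorem exists_cyl {J : Type u} {r : J → (ℕ → Bool)} (hr : Function.Injective r) {E : Set J}
    (hE : E.Finite) (i : J) (σ : Σ n : ℕ, (Fin n → Bool)) (hi : i ∈ Cyl r σ) :
    ∃ τ, Cyl r τ ⊆ Cyl r σ ∧ i ∈ Cyl r τ ∧ ∀ i' ∈ E, i' ∈ Cyl r τ → i' = i := by
  obtain ⟨n, hn⟩ := isolate hr hE i
  refine ⟨ini (r i) (max n σ.1), ?_, rfl, ?_⟩
  · intro k hk
    have h1 : ini (r k) (max n σ.1) = ini (r i) (max n σ.1) := hk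
    rw [ini_eq] at h1
    have h2 : ini (r i) σ.1 = σ := hi
    change ini (r k) σ.1 = σ
    rw [← h2]
    change ini (r k) σ.1 = ini (r i) σ.1
    rw [ini_eq]
    exact ⟨rfl, fun m hm => h1.2 m (lt_of_lt_of_le hm (le_max_right _ _))⟩
  · intro k hk hkτ
    have h1 : ini (r k) (max n σ.1) = ini (r i) (max n σ.1) := hkτ
    rw [ini_eq] at h1
    apply hn k hk
    rw [ini_eq]
    exact ⟨rfl, fun m hm => h1.2 m (lt_of_lt_of_le hm (le_max_left _ _))⟩

variable {X : Type u} [MetricSpace X] {J : Type v}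

/-- The unions of the parts of `E` in the cylinders are of class `β`. -/
def Good (G : J → Set X) (r : J → (ℕ → Bool)) (β : Ordinal.{0}) (E : Set J) : Prop :=
  ∀ σ, Sg β (⋃ c ∈ E ∩ Cyl r σ, G c)

theorem Good.mono {G : J → Set X} {r : J → (ℕ → Bool)} {β γ : Ordinal.{0}} {E : Set J}
    (h : Good G r β E) (hβ : β ≤ γ) : Good G r γ E := fun σ => (h σ).mono hβ

theorem Good.one_le {G : J → Set X} {r : J → (ℕ → Bool)} {β : Ordinal.{0}} {E : Set J}
    (h : Good G r β E) : 1 ≤ β := (h ⟨0, fun i => i.elim0⟩).one_le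

theorem Good.iUnion {G : J → Set X} {r : J → (ℕ → Bool)} {β : Ordinal.{0}} (hβ : 1 ≤ β)
    {I : Sort*} [Countable I] {E : I → Set J} (h : ∀ n, Good G r β (E n)) :
    Good G r β (⋃ n, E n) := by
  intro σ
  have h1 : (⋃ c ∈ (⋃ n, E n) ∩ Cyl r σ, G c) = ⋃ n, ⋃ c ∈ E n ∩ Cyl r σ, G c := by
    ext x
    simp only [mem_iUnion, mem_inter_iff, exists_prop]
    constructor
    · rintro ⟨c, ⟨⟨n, hn⟩, hc⟩, hx⟩
      exact ⟨n, c, ⟨hn, hc⟩, hx⟩
    · rintro ⟨n, c, ⟨hn, hc⟩, hx⟩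
      exact ⟨c, ⟨⟨n, hn⟩, hc⟩, hx⟩
  rw [h1]
  exact Sg.iUnion hβ fun n => h n σ

theorem Good.empty {G : J → Set X} {r : J → (ℕ → Bool)} {β : Ordinal.{0}} (hβ : 1 ≤ β) :
    Good G r β ∅ := by
  intro σ
  simpa using sg_empty hβ

omit [MetricSpace X] in
/-- Traces of differences: the basic identity. -/
theorem diff_identity {G : J → Set X} {r : J → (ℕ → Bool)} (hr : Function.Injective r)
    (hfin : ∀ x, {i | x ∈ G i}.Finite) (A A' : Set J) (hA : A ⊆ A') (B : J → Set X)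
    (σ : Σ n : ℕ, (Fin n → Bool)) :
    (⋃ c ∈ A ∩ Cyl r σ, (B c)ᶜ ∩ G c) = ⋃ τ, ⋃ (_ : Cyl r τ ⊆ Cyl r σ),
      (⋃ c ∈ A ∩ Cyl r τ, G c) ∩ (⋃ c ∈ A' ∩ Cyl r τ, B c ∩ G c)ᶜ := by
  ext x
  simp only [mem_iUnion, mem_inter_iff, mem_compl_iff, exists_prop, not_exists, not_and]
  constructor
  · rintro ⟨c, ⟨hcA, hcσ⟩, hcB, hx⟩
    obtain ⟨τ, h1, h2, h3⟩ := exists_cyl hr (hfin x) c σ hcσ
    refine ⟨τ, h1, ⟨c, ⟨hcA, h2⟩, hx⟩, ?_⟩
    intro d hd hdB hdx
    have h4 := h3 d hdx hd.2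
    subst h4
    exact hcB hdB
  · rintro ⟨τ, h1, ⟨c, ⟨hcA, hcτ⟩, hx⟩, h2⟩
    refine ⟨c, ⟨hcA, h1 hcτ⟩, fun hB => h2 c ⟨hA hcA, hcτ⟩ hB hx, hx⟩

theorem Good.diff {G : J → Set X} {r : J → (ℕ → Bool)} (hr : Function.Injective r)
    (hfin : ∀ x, {i | x ∈ G i}.Finite) {β : Ordinal.{0}} {A B : Set J} (hA : Good G r β A)
    (hB : Good G r β B) : Good G r (β + 1) (A \ B) := by
  classical
  intro σ
  have h1 := diff_identity (G := G) hr hfin A Set.univ (subset_univ _)
    (fun c => if c ∈ B then Set.univ else ∅) σ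
  have h2 : (⋃ c ∈ A \ B ∩ Cyl r σ, G c) =
      ⋃ c ∈ A ∩ Cyl r σ, ((fun c => if c ∈ B then (Set.univ : Set X) else ∅) c)ᶜ ∩ G c := by
    ext x
    simp only [mem_iUnion, mem_inter_iff, mem_sdiff, mem_compl_iff, exists_prop]
    constructor
    · rintro ⟨c, ⟨⟨hA, hB⟩, hσ⟩, hx⟩
      exact ⟨c, ⟨hA, hσ⟩, by simp [hB], hx⟩
    · rintro ⟨c, ⟨hA, hσ⟩, hB, hx⟩
      refine ⟨c, ⟨⟨hA, ?_⟩, hσ⟩, hx⟩
      intro h
      simp [h] at hB
  rw [h2, h1]
  have h0 : 1 ≤ β + 1 := hA.one_le.trans (by simp)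
  refine Sg.iUnion h0 fun τ => Sg.iUnion h0 fun hτ => ?_
  have h3 : (⋃ c ∈ Set.univ ∩ Cyl r τ, (if c ∈ B then (Set.univ : Set X) else ∅) ∩ G c) =
      ⋃ c ∈ B ∩ Cyl r τ, G c := by
    ext x
    simp only [mem_iUnion, mem_inter_iff, exists_prop, mem_univ, true_and]
    constructor
    · rintro ⟨c, hσ, hB, hx⟩
      refine ⟨c, ⟨?_, hσ⟩, hx⟩
      by_contra h
      simp [h] at hB
    · rintro ⟨c, ⟨hB, hσ⟩, hx⟩
      exact ⟨c, hσ, by simp [hB], hx⟩
  rw [h3]
  exact ((hA τ).mono (by simp)).inter (hB τ).compl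

theorem exists_good {G : J → Set X} (hG : PFB G) (r : J → (ℕ → Bool)) (E : Set J) :
    ∃ β : Ordinal.{0}, β < ω₁ ∧ Good G r β E := by
  have h1 : ∀ σ : (Σ n : ℕ, (Fin n → Bool)), ∃ β : Ordinal.{0}, β < ω₁ ∧
      Sg β (⋃ c ∈ E ∩ Cyl r σ, G c) := fun σ => exists_sg (hG.meas _)
  choose β hβ1 hβ2 using h1
  exact ⟨⨆ σ, β σ, iSup_lt_w1 hβ1, fun σ => (hβ2 σ).mono (le_iSup_w1 β σ)⟩

/-- Disjoint open sets at one level. -/
theorem card_le {W : Type w} {O : W → Set W} (hOd : Pairwise (fun x y => Disjoint (O x) (O y)))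
    {y : W} {x x' : W} (hx : y ∈ O x) (hx' : y ∈ O x') : x = x' := by
  by_contra hne
  exact disjoint_left.1 (hOd hne) hx hx'

/-- The evaluation lemma: the set of the `z` with `w ∈ C z`, where the sets `C z` are of class
`α`, is good of class `β + α` when `β` bounds the values of `R` on the members of the base
which contain `w`. -/
theorem key {G : J → Set X} (hG : PFB G) {r : J → (ℕ → Bool)} (hr : Function.Injective r)
    {W : Type w} [MetricSpace W] {O : ℕ → W → Set W}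
    (hOd : ∀ n, Pairwise (fun x y => Disjoint (O n x) (O n y)))
    (hOb : ∀ (y : W) (U : Set W), IsOpen U → y ∈ U → ∃ n x, y ∈ O n x ∧ O n x ⊆ U)
    (α : Ordinal.{0}) (hα : 1 ≤ α) (hα' : α < ω₁) (C : J → Set W) (hC : ∀ z, Sg α (C z)) :
    ∃ R : ℕ → W → Ordinal.{0}, (∀ n x, R n x < ω₁) ∧
      ∀ (y : W) (β : Ordinal.{0}), (∀ n x, y ∈ O n x → R n x ≤ β) →
        Good G r (β + α) {z | y ∈ C z} := by
  induction α using WellFoundedLT.induction generalizing C with
  | _ α ih =>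
    rcases hα.eq_or_lt with rfl | hlt
    · have h1 : ∀ n x, ∃ b : Ordinal.{0}, b < ω₁ ∧ Good G r b {z | O n x ⊆ C z} :=
        fun n x => exists_good hG r _
      choose R hR1 hR2 using h1
      refine ⟨R, hR1, fun y β hβ => ?_⟩
      have h2 : {z | y ∈ C z} = ⋃ n : ℕ, ⋃ x : {x // y ∈ O n x}, {z | O n (x : W) ⊆ C z} := by
        ext z
        simp only [mem_ofPred_eq, mem_iUnion]
        constructor
        · intro hz
          obtain ⟨n, x, hx, hxC⟩ := hOb y (C z) (sg_one.1 (hC z)) hz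
          exact ⟨n, ⟨x, hx⟩, hxC⟩
        · rintro ⟨n, ⟨x, hx⟩, hxC⟩
          exact hxC hx
      rw [h2]
      have h0 : (1 : Ordinal.{0}) ≤ β + 1 := by simp
      refine Good.iUnion h0 fun n => ?_
      have hsub : Subsingleton {x // y ∈ O n x} :=
        ⟨fun a b => Subtype.ext (card_le (hOd n) a.2 b.2)⟩
      refine Good.iUnion h0 fun x => ?_
      exact (hR2 n x).mono ((hβ n x x.2).trans (by simp))
    · have h' : ∀ z, ∃ (f : ℕ → Set W) (β : ℕ → Ordinal.{0}), C z = (⋃ n, f n) ∧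
          ∀ n, 1 ≤ β n ∧ β n < α ∧ Sg (β n) (f n)ᶜ := by
        intro z
        obtain ⟨f, hf1, hf2⟩ := (sg_iff hlt).1 (hC z)
        choose β hβ1 hβ2 hβ3 using hf2
        exact ⟨f, β, hf1, fun n => ⟨hβ1 n, hβ2 n, hβ3 n⟩⟩
      choose f b hfC hfb using h'
      have : Countable (Iio α) := countable_Iio_w1 hα'
      classical
      have h1 : ∀ (n : ℕ) (a : Iio α), ∃ R : ℕ → W → Ordinal.{0}, (∀ m x, R m x < ω₁) ∧
          ∀ (y : W) (β : Ordinal.{0}), (∀ m x, y ∈ O m x → R m x ≤ β) →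
            Good G r (β + a) {z | y ∈ (if b z n = a then (f z n)ᶜ else ∅)} := by
        intro n a
        by_cases ha : 1 ≤ (a : Ordinal.{0})
        · refine ih a a.2 ha (a.2.trans hα') _ fun z => ?_
          split_ifs with hz
          · rw [← hz]
            exact (hfb z n).2.2
          · exact sg_empty ha
        · refine ⟨fun _ _ => 1, fun _ _ => one_lt_w1, fun y β hβ => ?_⟩
          have h2 : {z | y ∈ (if b z n = a then (f z n)ᶜ else ∅)} = ∅ := by
            ext z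
            have h3 : b z n ≠ a := fun h => ha (h ▸ (hfb z n).1)
            simp [h3]
          rw [h2]
          obtain ⟨m, x, hx, -⟩ := hOb y Set.univ isOpen_univ trivial
          exact Good.empty ((hβ m x hx).trans (by simp))
      choose R hR1 hR2 using h1
      have h2 : ∀ (n : ℕ) (a : Iio α), ∃ c : Ordinal.{0}, c < ω₁ ∧
          Good G r c {z | b z n = a} := fun n a => exists_good hG r _
      choose c hc1 hc2 using h2
      refine ⟨fun m x => ⨆ p : ℕ × Iio α, max (R p.1 p.2 m x) (c p.1 p.2), fun m x =>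
        iSup_lt_w1 fun p => max_lt (hR1 _ _ _ _) (hc1 _ _), fun y β hβ => ?_⟩
      have hbdd : ∀ m x, BddAbove (range fun p : ℕ × Iio α =>
          max (R p.1 p.2 m x) (c p.1 p.2)) := fun m x => Ordinal.bddAbove_of_small
      have hle : ∀ m x, y ∈ O m x → ∀ (n : ℕ) (a : Iio α),
          max (R n a m x) (c n a) ≤ β := fun m x hx n a =>
        (le_ciSup (hbdd m x) (n, a)).trans (hβ m x hx)
      have h3 : {z | y ∈ C z} = ⋃ n : ℕ, ⋃ a : Iio α,
          ({z | b z n = a} \ {z | y ∈ (if b z n = a then (f z n)ᶜ else ∅)}) := by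
        ext z
        simp only [mem_ofPred_eq, mem_iUnion, mem_sdiff]
        rw [hfC z, mem_iUnion]
        constructor
        · rintro ⟨n, hn⟩
          refine ⟨n, ⟨b z n, (hfb z n).2.1⟩, rfl, ?_⟩
          simp [hn]
        · rintro ⟨n, a, h4, h5⟩
          refine ⟨n, ?_⟩
          rw [if_pos h4] at h5
          by_contra h6
          exact h5 h6
      rw [h3]
      have h0 : (1 : Ordinal.{0}) ≤ β + α := hα.trans le_add_self
      refine Good.iUnion h0 fun n => Good.iUnion h0 fun a => ?_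
      obtain ⟨m, x, hx, -⟩ := hOb y Set.univ isOpen_univ trivial
      have h4 : Good G r (β + a) {z | b z n = a} :=
        (hc2 n a).mono (((le_max_right _ _).trans (hle m x hx n a)).trans
          le_self_add)
      have h5 := hR2 n a y β fun m x hx => (le_max_left _ _).trans (hle m x hx n a)
      have h6 := Good.diff hr hG.fin h4 h5
      refine h6.mono ?_
      rw [add_assoc]
      exact (add_le_add_iff_left β).2 (Order.add_one_le_of_lt a.2)

end Pool.Agent.Helper66.AO
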