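import Mathlib
import Pool.Agent.Helper66.AO.Good

/-!
Diagonal unions `⋃ c, A c ∩ B c` for sets `A c` of one class and a point-finite family `B` all of
whose unions are of one class.
-/

set_option autoImplicit false

open Set Cardinal Ordinal TopologicalSpace

universe u v w

namespace Pool.Agent.Helper66.AO

open Pool.Agent.Helper66.PF

theorem cyl_zero {J : Type v} (r : J → (ℕ → Bool)) :
    Cyl r ⟨0, fun i => i.elim0⟩ = Set.univ := by
  ext i
  simp only [Cyl, mem_ofPred_eq, mem_univ, iff_true, ini]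
  congr 1
  funext k
  exact k.elim0

theorem diag {X : Type u} [MetricSpace X] {J : Type v} {B : J → Set X} {r : J → (ℕ → Bool)}
    (hr : Function.Injective r) (hfin : ∀ x, {c | x ∈ B c}.Finite) {γ : Ordinal.{0}}
    (hγ : γ < ω₁) (hB : ∀ E : Set J, Sg γ (⋃ c ∈ E, B c)) (α : Ordinal.{0}) (hα : 1 ≤ α)
    (hα' : α < ω₁) : ∃ ρ : Ordinal.{0}, ρ < ω₁ ∧ ∀ A : J → Set X, (∀ c, Sg α (A c)) →
      ∀ E : Set J, Sg ρ (⋃ c ∈ E, A c ∩ B c) := by
  have hγ1 : 1 ≤ γ := (hB ∅).one_le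
  obtain ⟨O, hO1, hO2, hO3⟩ := Pool.Agent.Helper52.Tame.exists_sigma_disjoint_base X
  induction α using WellFoundedLT.induction with
  | _ α ih =>
    rcases hα.eq_or_lt with rfl | hlt
    · refine ⟨γ, hγ, fun A hA E => ?_⟩
      have h1 : (⋃ c ∈ E, A c ∩ B c) = ⋃ n : ℕ, ⋃ x ∈ (Set.univ : Set X),
          O n x ∩ ⋃ c ∈ {c | c ∈ E ∧ O n x ⊆ A c}, B c := by
        ext y
        simp only [mem_iUnion, mem_inter_iff, exists_prop, mem_univ, true_and, mem_ofPred_eq]
        constructor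
        · rintro ⟨c, hc, hyA, hyB⟩
          obtain ⟨n, x, hx1, hx2⟩ := hO3 y (A c) (sg_one.1 (hA c)) hyA
          exact ⟨n, x, hx1, c, ⟨hc, hx2⟩, hyB⟩
        · rintro ⟨n, x, hx, c, ⟨hc, hx2⟩, hyB⟩
          exact ⟨c, hc, hx2 hx, hyB⟩
      rw [h1]
      exact Sg.iUnion_nat fun n => Sg.iUnion_disjoint (hO1 n) (hO2 n) hγ1 hγ
        (fun x _ => hB _)
    · have : Countable (Iio α) := countable_Iio_w1 hα'
      have h1 : ∀ a : Iio α, ∃ ρ : Ordinal.{0}, ρ < ω₁ ∧ (1 ≤ (a : Ordinal.{0}) →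
          ∀ A : J → Set X, (∀ c, Sg (a : Ordinal.{0}) (A c)) →
            ∀ E : Set J, Sg ρ (⋃ c ∈ E, A c ∩ B c)) := by
        intro a
        by_cases ha : 1 ≤ (a : Ordinal.{0})
        · obtain ⟨ρ, h2, h3⟩ := ih a a.2 ha (a.2.trans hα')
          exact ⟨ρ, h2, fun _ => h3⟩
        · exact ⟨1, one_lt_w1, fun h => absurd h ha⟩
      choose ρ hρ1 hρ2 using h1
      refine ⟨max γ (⨆ a, (ρ a + 1)), max_lt hγ (iSup_lt_w1 fun a => add_one_lt_w1 (hρ1 a)),
        fun A hA E => ?_⟩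
      have h' : ∀ c, ∃ (f : ℕ → Set X) (β : ℕ → Ordinal.{0}), A c = (⋃ n, f n) ∧
          ∀ n, 1 ≤ β n ∧ β n < α ∧ Sg (β n) (f n)ᶜ := by
        intro c
        obtain ⟨f, hf1, hf2⟩ := (sg_iff hlt).1 (hA c)
        choose β hβ1 hβ2 hβ3 using hf2
        exact ⟨f, β, hf1, fun n => ⟨hβ1 n, hβ2 n, hβ3 n⟩⟩
      choose f b hfC hfb using h'
      have hm1 : (1 : Ordinal.{0}) ≤ max γ (⨆ a, (ρ a + 1)) := hγ1.trans (le_max_left _ _)
      classical
      have h2 : (⋃ c ∈ E, A c ∩ B c) = ⋃ n : ℕ, ⋃ a : Iio α,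
          ⋃ c ∈ {c | c ∈ E ∧ b c n = a} ∩ Cyl r ⟨0, fun i => i.elim0⟩,
            ((if b c n = a then (f c n)ᶜ else ∅) : Set X)ᶜ ∩ B c := by
        ext y
        simp only [mem_iUnion, mem_inter_iff, exists_prop, mem_ofPred_eq, cyl_zero, mem_univ,
          and_true, mem_compl_iff]
        constructor
        · rintro ⟨c, hc, hyA, hyB⟩
          rw [hfC c, mem_iUnion] at hyA
          obtain ⟨n, hn⟩ := hyA
          exact ⟨n, ⟨b c n, (hfb c n).2.1⟩, c, ⟨hc, rfl⟩, by simp [hn], hyB⟩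
        · rintro ⟨n, a, c, ⟨hc, hca⟩, hyA, hyB⟩
          refine ⟨c, hc, ?_, hyB⟩
          rw [hfC c, mem_iUnion]
          refine ⟨n, ?_⟩
          rw [if_pos hca] at hyA
          by_contra h6
          exact hyA h6
      rw [h2]
      refine Sg.iUnion_nat fun n => Sg.iUnion hm1 fun a => ?_
      rw [diff_identity hr hfin _ _ Subset.rfl (fun c => if b c n = a then (f c n)ᶜ else ∅)]
      refine Sg.iUnion hm1 fun τ => Sg.iUnion hm1 fun hτ => ?_
      refine Sg.inter ((hB _).mono (le_max_left _ _)) ?_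
      by_cases ha : 1 ≤ (a : Ordinal.{0})
      · have h3 := hρ2 a ha (fun c => if b c n = a then (f c n)ᶜ else ∅) (fun c => by
          split_ifs with hc
          · rw [← hc]; exact (hfb c n).2.2
          · exact sg_empty ha) ({c | c ∈ E ∧ b c n = a} ∩ Cyl r τ)
        refine h3.compl.mono ?_
        refine le_trans ?_ (le_max_right _ _)
        exact le_ciSup (f := fun a => ρ a + 1) Ordinal.bddAbove_of_small a
      · have h3 : {c | c ∈ E ∧ b c n = a} ∩ Cyl r τ = ∅ := by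
          ext c
          simp only [mem_inter_iff, mem_ofPred_eq, mem_empty_iff_false, iff_false]
          rintro ⟨⟨-, h4⟩, -⟩
          exact ha (h4 ▸ (hfb c n).1)
        rw [h3]
        simpa using sg_univ hm1

end Pool.Agent.Helper66.AO
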