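import Mathlib
import Pool.Agent.Helper66.AO.Diag
import Pool.Agent.Helper52.TameDich

/-!
An unbounded family gives an unbounded family with at most continuum many members.
-/

set_option autoImplicit false

open Set Cardinal Ordinal TopologicalSpace

universe u v w

namespace Pool.Agent.Helper66.AO

open Pool.Agent.Helper66.PF

theorem exists_small' {X : Type u} [MetricSpace X] {ι : Type u} {F : ι → Set X} (hF : PFB F)
    (h : ¬ ∃ α : Ordinal.{0}, α < ω₁ ∧ ∀ T : Set ι, Sg α (⋃ i ∈ T, F i)) :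
    ∃ (κ : Cardinal.{u}) (B : κ.ord.ToType → Set X) (r : κ.ord.ToType → (ℕ → Bool)),
      QuasiMeasurable κ ∧ κ ≤ #ι ∧ κ ≤ 𝔠 ∧ (∀ D : Set X, Dense D → κ < #D) ∧
      Function.Injective r ∧ PFB B ∧
      (¬ ∃ α : Ordinal.{0}, α < ω₁ ∧ ∀ E : Set κ.ord.ToType, Sg α (⋃ c ∈ E, B c)) ∧
      ∀ S : Set κ.ord.ToType, #S < κ →
        ∃ α : Ordinal.{0}, α < ω₁ ∧ ∀ E ⊆ S, Sg α (⋃ c ∈ E, B c) := by
  obtain ⟨κι, G, T₀, κ, hG, hsep, hT₀, hI, hκ, hκι, hκc, hadd, N, hN, hNκ, hNI⟩ :=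
    Pool.Agent.Helper52.Tame.data' hF h
  have hdens : ∀ D : Set X, Dense D → κ < #D := by
    intro D hD
    by_contra hcon
    rw [not_lt] at hcon
    have hXne : Nonempty X := by
      by_contra hX
      rw [not_nonempty_iff] at hX
      apply hI.univ
      refine ⟨1, one_lt_w1, fun T' _ => ?_⟩
      have : (⋃ i ∈ T', G i) = ∅ := Set.eq_empty_of_isEmpty _
      rw [this]
      exact sg_empty le_rfl
    have hDne : Nonempty D := hD.nonempty.to_subtype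
    have hle : #D ≤ #κ.ord.ToType := by rw [mk_ord_toType]; exact hcon
    obtain ⟨g⟩ := hle
    obtain ⟨s, hsurj⟩ : ∃ s : κ.ord.ToType → D, Function.Surjective s :=
      ⟨Function.invFun g, Function.invFun_surjective g.injective⟩
    refine dense_false hG T₀ hsep hT₀ hI hκ hadd (fun k => (s k : X)) ?_
    have h1 : range (fun k => (s k : X)) = D := by
      ext x
      constructor
      · rintro ⟨k, rfl⟩
        exact (s k).2
      · intro hx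
        obtain ⟨k, hk⟩ := hsurj ⟨x, hx⟩
        exact ⟨k, by simp only [hk]⟩
    rw [DenseRange, h1]
    exact hD
  obtain ⟨e⟩ := Cardinal.eq.1 (show #κ.ord.ToType = #N by rw [mk_ord_toType, hNκ])
  obtain ⟨a₁, ha₁, ha₁', hSa⟩ := Pool.Agent.Helper52.Tame.exists_uniform hκ hadd
    (e := fun c => (e c : Set κι)) (fun c => hN (e c).2)
  obtain ⟨M, hM⟩ : ∃ M : κ.ord.ToType → Set κι, M = fun c =>
      {i | i ∈ (e c : Set κι) ∧ ∀ d < c, i ∉ (e d : Set κι)} := ⟨_, rfl⟩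
  have hMuniq : ∀ i c d, i ∈ M c → i ∈ M d → c = d := by
    intro i c d hc hd
    rw [hM] at hc hd
    rcases lt_trichotomy c d with h | h | h
    · exact absurd hc.1 (hd.2 c h)
    · exact h
    · exact absurd hd.1 (hc.2 d h)
  have hne : Nonempty κ.ord.ToType := by
    rw [← Cardinal.mk_ne_zero_iff, mk_ord_toType]
    exact (Cardinal.aleph0_pos.trans hκ.lt).ne'
  have hMex : ∀ i, ∃ c, i ∈ ⋃₀ N → i ∈ M c := by
    intro i
    by_cases hi : i ∈ ⋃₀ N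
    · obtain ⟨A, hA, hiA⟩ := hi
      have hne : {c | i ∈ (e c : Set κι)}.Nonempty := by
        obtain ⟨c, hc⟩ := e.surjective ⟨A, hA⟩
        exact ⟨c, by rw [mem_ofPred_eq, hc]; exact hiA⟩
      obtain ⟨c, hc, hmin⟩ := WellFounded.has_min (wellFounded_lt (α := κ.ord.ToType)) _ hne
      refine ⟨c, fun _ => ?_⟩
      rw [hM]
      exact ⟨hc, fun d hd hid => hmin d hid hd⟩
    · obtain ⟨c⟩ := hne
      exact ⟨c, fun h => absurd h hi⟩
  choose ν hν using hMex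
  have hMsub : ∀ c i, i ∈ M c → i ∈ ⋃₀ N := by
    intro c i hi
    rw [hM] at hi
    exact ⟨e c, (e c).2, hi.1⟩
  have hcode : ∃ h : κ.ord.ToType → (ℕ → Bool), Function.Injective h := by
    have h1 : Cardinal.lift.{0} #κ.ord.ToType ≤ Cardinal.lift.{u} #(ℕ → Bool) := by
      rw [mk_ord_toType]
      simpa using hκc
    obtain ⟨g⟩ := Cardinal.lift_mk_le'.1 h1
    exact ⟨g, g.injective⟩
  obtain ⟨r, hr⟩ := hcode
  obtain ⟨B, hB⟩ : ∃ B : κ.ord.ToType → Set X, B = fun c => ⋃ i ∈ M c, G i := ⟨_, rfl⟩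
  have hBfin : ∀ x, {c | x ∈ B c}.Finite := by
    intro x
    refine ((hG.fin x).image ν).subset ?_
    intro c hc
    rw [mem_ofPred_eq, hB] at hc
    obtain ⟨i, hi, hx⟩ := mem_iUnion₂.1 hc
    exact ⟨i, hx, hMuniq i _ _ (hν i (hMsub c i hi)) hi⟩
  have hBU : ∀ E : Set κ.ord.ToType, (⋃ c ∈ E, B c) = ⋃ i ∈ {i | ∃ c ∈ E, i ∈ M c}, G i := by
    intro E
    ext x
    rw [hB]
    simp only [mem_iUnion, mem_ofPred_eq, exists_prop]
    constructor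
    · rintro ⟨c, hc, i, hi, hx⟩
      exact ⟨i, ⟨c, hc, hi⟩, hx⟩
    · rintro ⟨i, ⟨c, hc, hi⟩, hx⟩
      exact ⟨c, hc, i, hi, hx⟩
  refine ⟨κ, B, r, hκ, hκι, hκc, hdens, hr, ⟨hBfin, fun E => by rw [hBU]; exact hG.meas _⟩, ?_,
    fun S hS => ?_⟩
  swap
  · obtain ⟨α, hα, h1⟩ := hadd ((fun c => (e c : Set κι)) '' S)
      (by rintro _ ⟨c, -, rfl⟩; exact hN (e c).2) (mk_image_le.trans_lt hS)
    refine ⟨α, hα, fun E hE => ?_⟩
    rw [hBU]
    refine h1 _ ?_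
    rintro i ⟨c, hc, hi⟩
    rw [hM] at hi
    exact ⟨_, ⟨c, hE hc, rfl⟩, hi.1⟩
  rintro ⟨γ, hγ, hγ'⟩
  obtain ⟨ρ, hρ, hρ'⟩ := diag hr hBfin hγ hγ' a₁ ha₁ ha₁'
  apply hNI
  refine ⟨ρ, hρ, fun T' hT' => ?_⟩
  have h1 : (⋃ i ∈ T', G i) = ⋃ c ∈ (Set.univ : Set κ.ord.ToType),
      (⋃ i ∈ T' ∩ M c, G i) ∩ B c := by
    ext x
    rw [hB]
    simp only [mem_iUnion, mem_inter_iff, exists_prop, mem_univ, true_and]
    constructor
    · rintro ⟨i, hi, hx⟩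
      have h2 := hν i (hT' hi)
      exact ⟨ν i, ⟨i, ⟨hi, h2⟩, hx⟩, i, h2, hx⟩
    · rintro ⟨c, ⟨i, ⟨hi, -⟩, hx⟩, -⟩
      exact ⟨i, hi, hx⟩
  rw [h1]
  refine hρ' _ (fun c => ?_) _
  have : NoMaxOrder κ.ord.ToType := Cardinal.noMaxOrder hκ.lt.le
  obtain ⟨b, hb⟩ := exists_gt c
  refine hSa b _ ?_
  rintro i ⟨-, hi⟩
  rw [hM] at hi
  exact mem_iUnion₂.2 ⟨c, hb, hi.1⟩

theorem exists_small {X : Type u} [MetricSpace X] {ι : Type u} {F : ι → Set X} (hF : PFB F)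
    (h : ¬ ∃ α : Ordinal.{0}, α < ω₁ ∧ ∀ T : Set ι, Sg α (⋃ i ∈ T, F i)) :
    ∃ (J : Type u) (B : J → Set X) (r : J → (ℕ → Bool)), Function.Injective r ∧ PFB B ∧
      ¬ ∃ α : Ordinal.{0}, α < ω₁ ∧ ∀ E : Set J, Sg α (⋃ c ∈ E, B c) := by
  obtain ⟨κ, B, r, -, -, -, -, hr, hB, hB', -⟩ := exists_small' hF h
  exact ⟨κ.ord.ToType, B, r, hr, hB, hB'⟩

end Pool.Agent.Helper66.AO
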