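import Mathlib
import Pool.Agent.Helper66.AO.Small

/-!
If some point-finite Borel-additive family is not of bounded class, then functions with values
below `ω₁` on the members of any other bounded family with at most continuum many members are
locally bounded, and families of size at most `ℵ₁` are σ-discretely decomposable.
-/

set_option autoImplicit false

open Set Cardinal Ordinal TopologicalSpace

universe u v w

namespace Pool.Agent.Helper66.AO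

open Pool.Agent.Helper66.PF

theorem local_bound {X : Type u} [MetricSpace X] {J : Type v} {B : J → Set X}
    {r : J → (ℕ → Bool)} (hr : Function.Injective r) (hB : PFB B)
    (h : ¬ ∃ α : Ordinal.{0}, α < ω₁ ∧ ∀ E : Set J, Sg α (⋃ c ∈ E, B c))
    {W : Type w} [MetricSpace W] {K : Type w} {H : K → Set W}
    (hfin : ∀ y, {b | y ∈ H b}.Finite) {q : K → (ℕ → Bool)} (hq : Function.Injective q)
    {γ : Ordinal.{0}} (hγ : γ < ω₁) (hγ' : ∀ E : Set K, Sg γ (⋃ b ∈ E, H b))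
    (ρ : K → Ordinal.{0}) (hρ : ∀ b, ρ b < ω₁) {O : ℕ → W → Set W}
    (hOd : ∀ n, Pairwise (fun x y => Disjoint (O n x) (O n y)))
    (hOb : ∀ (y : W) (U : Set W), IsOpen U → y ∈ U → ∃ n x, y ∈ O n x ∧ O n x ⊆ U) :
    ∃ R : ℕ → W → Ordinal.{0}, (∀ n x, R n x < ω₁) ∧
      ∀ (y : W) (b : K), y ∈ H b → ∃ n x, y ∈ O n x ∧ ρ b < R n x := by
  have h1 : ∀ b : K, ∃ T : Set J, ¬ Sg (ρ b + γ) (⋃ c ∈ T, B c) := by
    intro b
    by_contra hcon
    push Not at hcon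
    exact h ⟨_, Pool.Agent.Helper52.Tame.add_lt_w1 (hρ b) hγ, hcon⟩
  choose T hT using h1
  have hγ1 : 1 ≤ γ := (hγ' ∅).one_le
  have h2 : ∀ σ : (Σ n : ℕ, (Fin n → Bool)), ∃ R : ℕ → W → Ordinal.{0}, (∀ n x, R n x < ω₁) ∧
      ∀ (y : W) (β : Ordinal.{0}), (∀ n x, y ∈ O n x → R n x ≤ β) →
        Good B r (β + γ) {z | y ∈ ⋃ b ∈ {b | z ∈ T b} ∩ Cyl q σ, H b} := fun σ =>
    key hB hr hOd hOb γ hγ1 hγ (fun z => ⋃ b ∈ {b | z ∈ T b} ∩ Cyl q σ, H b) (fun z => hγ' _)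
  choose R hR1 hR2 using h2
  refine ⟨fun n x => ⨆ σ, R σ n x, fun n x => iSup_lt_w1 fun σ => hR1 σ n x, ?_⟩
  intro y b hyb
  by_contra hcon
  push Not at hcon
  have hb0 : b ∈ Cyl q ⟨0, fun i => i.elim0⟩ := by rw [cyl_zero]; trivial
  obtain ⟨σ, -, hσ1, hσ2⟩ := exists_cyl hq (hfin y) b _ hb0
  have h3 := hR2 σ y (ρ b) (fun n x hx => (le_iSup_w1 (fun σ => R σ n x) σ).trans (hcon n x hx))
  have h4 : {z | y ∈ ⋃ b ∈ {b | z ∈ T b} ∩ Cyl q σ, H b} = T b := by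
    ext z
    simp only [mem_ofPred_eq, mem_iUnion, mem_inter_iff, exists_prop]
    constructor
    · rintro ⟨b', ⟨hz, hb'⟩, hy⟩
      have := hσ2 b' hy hb'
      rwa [this] at hz
    · intro hz
      exact ⟨b, ⟨hz, hσ1⟩, hyb⟩
  rw [h4] at h3
  have h5 := h3 ⟨0, fun i => i.elim0⟩
  rw [cyl_zero, inter_univ] at h5
  exact hT b h5

theorem decompose {W : Type w} [MetricSpace W] {K : Type v} {H : K → Set W}
    {ρ : K → Ordinal.{0}} (hρ : Function.Injective ρ) {O : ℕ → W → Set W}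
    (hOo : ∀ n x, IsOpen (O n x))
    (hOd : ∀ n, Pairwise (fun x y => Disjoint (O n x) (O n y))) {R : ℕ → W → Ordinal.{0}}
    (hR : ∀ n x, R n x < ω₁)
    (hRb : ∀ (y : W) (b : K), y ∈ H b → ∃ n x, y ∈ O n x ∧ ρ b < R n x) :
    ∃ Z : ℕ → K → Set W, (∀ b, H b = ⋃ n, Z n b) ∧
      ∀ n, ∃ ε : ℝ, 0 < ε ∧ ∀ b b', b ≠ b' → ∀ y ∈ Z n b, ∀ y' ∈ Z n b', ε ≤ dist y y' := by
  have h1 : ∀ n x, ∃ f : K → ℕ, InjOn f {b | ρ b < R n x} := by
    intro n x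
    have h2 : {b | ρ b < R n x}.Countable :=
      (countable_Iio_w1 (hR n x)).preimage hρ
    exact countable_iff_exists_injOn.1 h2
  choose f hf using h1
  obtain ⟨Z, hZ⟩ : ∃ Z : ℕ × ℕ × ℕ → K → Set W, Z = fun p b =>
      {y | y ∈ H b ∧ ∃ x, y ∈ O p.1 x ∧ ρ b < R p.1 x ∧ f p.1 x b = p.2.1 ∧
        Metric.ball y (1 / ((p.2.2 : ℝ) + 1)) ⊆ O p.1 x} := ⟨_, rfl⟩
  refine ⟨fun n b => Z ((Denumerable.eqv (ℕ × ℕ × ℕ)).symm n) b, fun b => ?_, fun n => ?_⟩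
  · ext y
    simp only [mem_iUnion]
    constructor
    · intro hy
      obtain ⟨n, x, hx, hR'⟩ := hRb y b hy
      obtain ⟨ε, hε, hb⟩ := Metric.isOpen_iff.1 (hOo n x) y hx
      obtain ⟨k, hk⟩ := exists_nat_one_div_lt hε
      refine ⟨Denumerable.eqv (ℕ × ℕ × ℕ) (n, f n x b, k), ?_⟩
      rw [Equiv.symm_apply_apply, hZ]
      exact ⟨hy, x, hx, hR', rfl, (Metric.ball_subset_ball hk.le).trans hb⟩
    · rintro ⟨n, hn⟩
      rw [hZ] at hn
      exact hn.1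
  · obtain ⟨p, hp⟩ : ∃ p, p = (Denumerable.eqv (ℕ × ℕ × ℕ)).symm n := ⟨_, rfl⟩
    refine ⟨1 / ((p.2.2 : ℝ) + 1), by positivity, ?_⟩
    intro b b' hbb y hy y' hy'
    simp only [← hp] at hy hy'
    by_contra hcon
    rw [not_le] at hcon
    rw [hZ] at hy hy'
    obtain ⟨-, x, hx1, hx2, hx3, hx4⟩ := hy
    obtain ⟨-, x', hx1', hx2', hx3', -⟩ := hy'
    have h3 : y' ∈ O p.1 x := hx4 (by rw [Metric.mem_ball, dist_comm]; exact hcon)
    have h4 : x = x' := card_le (hOd p.1) h3 hx1'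
    subst h4
    exact hbb (hf p.1 x hx2 hx2' (hx3.trans hx3'.symm))

/-- The theorem for indexed families. -/
theorem main {X : Type u} [MetricSpace X] {ι : Type u} {F : ι → Set X} (hF : PFB F)
    (h : ¬ ∃ α : Ordinal.{0}, α < ω₁ ∧ ∀ T : Set ι, Sg α (⋃ i ∈ T, F i))
    {W : Type w} [MetricSpace W] {K : Type w} (hK : #K ≤ ℵ₁) {H : K → Set W} (hH : PFB H) :
    ∃ Z : ℕ → K → Set W, (∀ b, H b = ⋃ n, Z n b) ∧
      ∀ n, ∃ ε : ℝ, 0 < ε ∧ ∀ b b', b ≠ b' → ∀ y ∈ Z n b, ∀ y' ∈ Z n b', ε ≤ dist y y' := by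
  obtain ⟨J, B, r, hr, hB, hB'⟩ := exists_small hF h
  obtain ⟨O, hO1, hO2, hO3⟩ := Pool.Agent.Helper52.Tame.exists_sigma_disjoint_base W
  obtain ⟨γ, hγ, hγ'⟩ : ∃ α : Ordinal.{0}, α < ω₁ ∧ ∀ T : Set K, Sg α (⋃ i ∈ T, H i) := by
    rcases dichotomy hH with h1 | ⟨⟨κ, hκ, hκK, -⟩, -⟩
    · exact h1
    · exact absurd (hκK.trans hK) (not_le.2 hκ.aleph_one_lt)
  obtain ⟨j, hj⟩ : ∃ j : K → (ω₁ : Ordinal.{0}).ToType, Function.Injective j := by
    have h1 : Cardinal.lift.{0} #K ≤ Cardinal.lift.{w} #(ω₁ : Ordinal.{0}).ToType := by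
      rw [mk_toType, card_omega]
      simpa using hK
    obtain ⟨g⟩ := Cardinal.lift_mk_le'.1 h1
    exact ⟨g, g.injective⟩
  obtain ⟨s, hs⟩ := exists_w1_real
  have hρ : Function.Injective (fun b : K => (ToType.toOrd (j b) : Ordinal.{0})) := by
    intro b b' hbb
    exact hj (ToType.mk.symm.injective (Subtype.ext hbb))
  obtain ⟨R, hR1, hR2⟩ := local_bound hr hB hB' hH.fin (hs.comp hj) hγ hγ'
    (fun b => (ToType.toOrd (j b) : Ordinal.{0})) (fun b => (ToType.toOrd (j b)).2) hO2 hO3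
  exact decompose hρ hO1 hO2 hR1 hR2

end Pool.Agent.Helper66.AO
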