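import Mathlib
import Pool.Agent.Helper66.AO.Local

/-!
The dichotomy for families of sets, with any hierarchy satisfying the usual equations.
-/

set_option autoImplicit false

open Set Cardinal Ordinal TopologicalSpace

universe u v w

namespace Pool.Agent.Helper66.AO

open Pool.Agent.Helper66.PF

/-- A family `𝒲` of subsets of a space is σ-discretely decomposable: every member `A` is the union
of sets `Z 0 A, Z 1 A, ...` such that for every `n` the family of the sets `Z n A` is discrete, that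
is, every point has a neighbourhood that meets `Z n A` for at most one member `A` of `𝒲`. -/
def SigmaDiscretelyDecomposable {W : Type w} [TopologicalSpace W] (𝒲 : Set (Set W)) : Prop :=
  ∃ Z : ℕ → Set W → Set W, (∀ A ∈ 𝒲, A = ⋃ n, Z n A) ∧
    ∀ n, ∀ y : W, ∃ U : Set W, IsOpen U ∧ y ∈ U ∧
      ∀ A ∈ 𝒲, ∀ B ∈ 𝒲, (Z n A ∩ U).Nonempty → (Z n B ∩ U).Nonempty → A = B

theorem pfb_of_sets {X : Type u} [MetricSpace X] (𝒳 : Set (Set X))
    (hfin : ∀ x : X, {A : Set X | A ∈ 𝒳 ∧ x ∈ A}.Finite)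
    (hadd : ∀ 𝒴 ⊆ 𝒳, @MeasurableSet X (borel X) (⋃₀ 𝒴)) : PFB (fun A : 𝒳 => (A : Set X)) := by
  refine ⟨fun x => ?_, fun T => ?_⟩
  · refine ((hfin x).preimage (f := (Subtype.val : 𝒳 → Set X))
      Subtype.val_injective.injOn).subset ?_
    intro A hA
    exact ⟨A.2, hA⟩
  · have := hadd (Subtype.val '' T) (by rintro _ ⟨A, -, rfl⟩; exact A.2)
    rwa [sUnion_image] at this

theorem final (X : Type u) [MetricSpace X] (𝒳 : Set (Set X))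
    (hfin : ∀ x : X, {A : Set X | A ∈ 𝒳 ∧ x ∈ A}.Finite)
    (hadd : ∀ 𝒴 ⊆ 𝒳, @MeasurableSet X (borel X) (⋃₀ 𝒴))
    (S : Ordinal.{0} → Set (Set X)) (hS1 : S 1 = {U : Set X | IsOpen U})
    (hS2 : ∀ α : Ordinal.{0}, 1 < α → α < (Cardinal.aleph 1).ord →
        S α = {A : Set X | ∃ f : ℕ → Set X, A = (⋃ n, f n) ∧
          ∀ n, ∃ β : Ordinal.{0}, 1 ≤ β ∧ β < α ∧ (f n)ᶜ ∈ S β}) :
    (∃ α : Ordinal.{0}, 1 ≤ α ∧ α < (Cardinal.aleph 1).ord ∧ ∀ 𝒴 ⊆ 𝒳, ⋃₀ 𝒴 ∈ S α) ∨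
    (∀ (W : Type w) [MetricSpace W] (𝒲 : Set (Set W)), #𝒲 ≤ ℵ₁ →
      (∀ y : W, {A : Set W | A ∈ 𝒲 ∧ y ∈ A}.Finite) →
      (∀ 𝒱 ⊆ 𝒲, @MeasurableSet W (borel W) (⋃₀ 𝒱)) → SigmaDiscretelyDecomposable 𝒲) := by
  have hF := pfb_of_sets 𝒳 hfin hadd
  by_cases hb : ∃ α : Ordinal.{0}, α < ω₁ ∧ ∀ T : Set 𝒳, Sg α (⋃ i ∈ T, (i : Set X))
  · left
    obtain ⟨α, hα, h⟩ := hb
    have hα' : α < (Cardinal.aleph 1).ord := by simpa using hα
    refine ⟨α, (h ∅).one_le, hα', fun 𝒴 h𝒴 => ?_⟩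
    rw [eq_sg S hS1 hS2 α (h ∅).one_le hα']
    have h5 := h (Subtype.val ⁻¹' 𝒴)
    have h6 : (⋃ i ∈ (Subtype.val ⁻¹' 𝒴 : Set 𝒳), (i : Set X)) = ⋃₀ 𝒴 := by
      ext x
      simp only [mem_iUnion, mem_preimage, exists_prop, mem_sUnion]
      constructor
      · rintro ⟨A, hA, hx⟩
        exact ⟨A, hA, hx⟩
      · rintro ⟨A, hA, hx⟩
        exact ⟨⟨A, h𝒴 hA⟩, hA, hx⟩
    rwa [h6] at h5
  · right
    intro W _ 𝒲 hcard hfin' hadd'
    obtain ⟨Z, hZ1, hZ2⟩ := main hF hb hcard (pfb_of_sets 𝒲 hfin' hadd')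
    classical
    refine ⟨fun n A => if hA : A ∈ 𝒲 then Z n ⟨A, hA⟩ else ∅, fun A hA => ?_, fun n y => ?_⟩
    · have h1 := hZ1 ⟨A, hA⟩
      simp only [hA, dif_pos]
      exact h1
    · obtain ⟨ε, hε, h1⟩ := hZ2 n
      refine ⟨Metric.ball y (ε / 2), Metric.isOpen_ball, Metric.mem_ball_self (half_pos hε), ?_⟩
      rintro A hA B hB ⟨a, ha1, ha2⟩ ⟨b, hb1, hb2⟩
      simp only [dif_pos hA] at ha1
      simp only [dif_pos hB] at hb1
      by_contra hne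
      have h2 := h1 ⟨A, hA⟩ ⟨B, hB⟩ (fun h => hne (congrArg Subtype.val h)) a ha1 b hb1
      rw [Metric.mem_ball] at ha2 hb2
      have h3 := dist_triangle_right a b y
      linarith

end Pool.Agent.Helper66.AO
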