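import Mathlib
import Pool.Agent.Helper66.AO.Final

/-!
Decompositions in terms of countable sets of indices attached to the members of a base that is a
countable union of disjoint families; compactness of decomposability at quasi-measurable cardinals.
-/

set_option autoImplicit false

open Set Cardinal Ordinal TopologicalSpace

universe u v w

namespace Pool.Agent.Helper66.AO

open Pool.Agent.Helper66.PF

/-- The members of the family `H` with indices in `T` are decomposed by countable sets attached to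
the sets `O n x`. -/
def CDon {W : Type w} (O : ℕ → W → Set W) {K : Type v} (H : K → Set W) (T : Set K) : Prop :=
  ∃ D : ℕ → W → Set K, (∀ n x, (D n x).Countable) ∧
    ∀ (y : W), ∀ b ∈ T, y ∈ H b → ∃ n x, y ∈ O n x ∧ b ∈ D n x

theorem CDon.mono {W : Type w} {O : ℕ → W → Set W} {K : Type v} {H : K → Set W} {T T' : Set K}
    (h : CDon O H T) (hT : T' ⊆ T) : CDon O H T' := by
  obtain ⟨D, h1, h2⟩ := h
  exact ⟨D, h1, fun y b hb hy => h2 y b (hT hb) hy⟩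

theorem CDon.toZ {W : Type w} [MetricSpace W] {O : ℕ → W → Set W} {K : Type v} {H : K → Set W}
    (hOo : ∀ n x, IsOpen (O n x))
    (hOd : ∀ n, Pairwise (fun x y => Disjoint (O n x) (O n y))) (h : CDon O H Set.univ) :
    ∃ Z : ℕ → K → Set W, (∀ b, H b = ⋃ n, Z n b) ∧
      ∀ n, ∃ ε : ℝ, 0 < ε ∧ ∀ b b', b ≠ b' → ∀ y ∈ Z n b, ∀ y' ∈ Z n b', ε ≤ dist y y' := by
  obtain ⟨D, hD, hRb⟩ := h
  have h1 : ∀ n x, ∃ f : K → ℕ, InjOn f (D n x) := by
    intro n x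
    exact countable_iff_exists_injOn.1 (hD n x)
  choose f hf using h1
  obtain ⟨Z, hZ⟩ : ∃ Z : ℕ × ℕ × ℕ → K → Set W, Z = fun p b =>
      {y | y ∈ H b ∧ ∃ x, y ∈ O p.1 x ∧ b ∈ D p.1 x ∧ f p.1 x b = p.2.1 ∧
        Metric.ball y (1 / ((p.2.2 : ℝ) + 1)) ⊆ O p.1 x} := ⟨_, rfl⟩
  refine ⟨fun n b => Z ((Denumerable.eqv (ℕ × ℕ × ℕ)).symm n) b, fun b => ?_, fun n => ?_⟩
  · ext y
    simp only [mem_iUnion]
    constructor
    · intro hy
      obtain ⟨n, x, hx, hR'⟩ := hRb y b trivial hy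
      obtain ⟨ε, hε, hb⟩ := Metric.isOpen_iff.1 (hOo n x) y hx
      obtain ⟨k, hk⟩ := exists_nat_one_div_lt hε
      refine ⟨Denumerable.eqv (ℕ × ℕ × ℕ) (n, f n x b, k), ?_⟩
      rw [Equiv.symm_apply_apply, hZ]
      exact ⟨hy, x, hx, hR', rfl, (Metric.ball_subset_ball hk.le).trans hb⟩
    · rintro ⟨n, hn⟩
      rw [hZ] at hn
      exact hn.1
  · obtain ⟨p, hp⟩ : ∃ p, p = (Denumerable.eqv (ℕ × ℕ × ℕ)).symm n := ⟨_, rfl⟩
    refine ⟨1 / ((p.2.2 : ℝ) + 1), by positivity, ?_⟩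
    intro b b' hbb y hy y' hy'
    simp only [← hp] at hy hy'
    by_contra hcon
    rw [not_le] at hcon
    rw [hZ] at hy hy'
    obtain ⟨-, x, hx1, hx2, hx3, hx4⟩ := hy
    obtain ⟨-, x', hx1', hx2', hx3', -⟩ := hy'
    have h3 : y' ∈ O p.1 x := hx4 (by rw [Metric.mem_ball, dist_comm]; exact hcon)
    have h4 : x = x' := card_le (hOd p.1) h3 hx1'
    subst h4
    exact hbb (hf p.1 x hx2 hx2' (hx3.trans hx3'.symm))

/-- From countable sets to a decomposition. -/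
theorem sdd_of_cd {W : Type w} [MetricSpace W] {O : ℕ → W → Set W}
    (hOo : ∀ n x, IsOpen (O n x)) (hOd : ∀ n, Pairwise (fun x y => Disjoint (O n x) (O n y)))
    {𝒲 : Set (Set W)} (h : CDon O (fun A : 𝒲 => (A : Set W)) Set.univ) :
    SigmaDiscretelyDecomposable 𝒲 := by
  obtain ⟨Z, hZ1, hZ2⟩ := h.toZ hOo hOd
  classical
  refine ⟨fun n A => if hA : A ∈ 𝒲 then Z n ⟨A, hA⟩ else ∅, fun A hA => ?_, fun n y => ?_⟩
  · have h1 := hZ1 ⟨A, hA⟩
    simp only [hA, dif_pos]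
    exact h1
  · obtain ⟨ε, hε, h1⟩ := hZ2 n
    refine ⟨Metric.ball y (ε / 2), Metric.isOpen_ball, Metric.mem_ball_self (half_pos hε), ?_⟩
    rintro A hA B hB ⟨a, ha1, ha2⟩ ⟨b, hb1, hb2⟩
    simp only [dif_pos hA] at ha1
    simp only [dif_pos hB] at hb1
    by_contra hne
    have h2 := h1 ⟨A, hA⟩ ⟨B, hB⟩ (fun h => hne (congrArg Subtype.val h)) a ha1 b hb1
    rw [Metric.mem_ball] at ha2 hb2
    have h3 := dist_triangle_right a b y
    linarith

/-- From a decomposition of the set of values to countable sets of indices. -/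
theorem cd_of_sdd {W : Type w} [MetricSpace W] {O : ℕ → W → Set W}
    (hOb : ∀ (y : W) (U : Set W), IsOpen U → y ∈ U → ∃ n x, y ∈ O n x ∧ O n x ⊆ U)
    {K : Type v} {H : K → Set W} (hfin : ∀ y, {b | y ∈ H b}.Finite) {T : Set K}
    (h : SigmaDiscretelyDecomposable (H '' T)) : CDon O H T := by
  obtain ⟨Z, hZ1, hZ2⟩ := h
  refine ⟨fun m x => {b | b ∈ T ∧ (H b).Nonempty ∧ ∃ n, (Z n (H b) ∩ O m x).Nonempty ∧
    ∀ A ∈ H '' T, (Z n A ∩ O m x).Nonempty → A = H b}, fun m x => ?_, ?_⟩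
  · have h1 : {b | b ∈ T ∧ (H b).Nonempty ∧ ∃ n, (Z n (H b) ∩ O m x).Nonempty ∧
        ∀ A ∈ H '' T, (Z n A ∩ O m x).Nonempty → A = H b} ⊆
        ⋃ n, {b | b ∈ T ∧ (H b).Nonempty ∧ (Z n (H b) ∩ O m x).Nonempty ∧
        ∀ A ∈ H '' T, (Z n A ∩ O m x).Nonempty → A = H b} := by
      rintro b ⟨h1, h2, n, h3, h4⟩
      exact mem_iUnion.2 ⟨n, h1, h2, h3, h4⟩
    refine (countable_iUnion fun n => ?_).mono h1
    rcases eq_empty_or_nonempty {b | b ∈ T ∧ (H b).Nonempty ∧ (Z n (H b) ∩ O m x).Nonempty ∧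
        ∀ A ∈ H '' T, (Z n A ∩ O m x).Nonempty → A = H b} with h2 | ⟨b₀, hb₀⟩
    · rw [h2]
      exact countable_empty
    · obtain ⟨y, hy⟩ := hb₀.2.1
      refine (hfin y).countable.mono ?_
      rintro b ⟨h3, -, h4, h5⟩
      have h6 := h5 (H b₀) ⟨b₀, hb₀.1, rfl⟩ hb₀.2.2.1
      change y ∈ H b
      rw [← h6]
      exact hy
  · intro y b hb hy
    have h1 : H b = ⋃ n, Z n (H b) := hZ1 (H b) ⟨b, hb, rfl⟩
    have h2 := hy
    rw [h1, mem_iUnion] at h2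
    obtain ⟨n, hn⟩ := h2
    obtain ⟨U, hU1, hU2, hU3⟩ := hZ2 n y
    obtain ⟨m, x, hx1, hx2⟩ := hOb y U hU1 hU2
    refine ⟨m, x, hx1, hb, ⟨y, hy⟩, n, ⟨y, hn, hx1⟩, ?_⟩
    rintro A hA ⟨a, ha1, ha2⟩
    exact hU3 A hA (H b) ⟨b, hb, rfl⟩ ⟨a, ha1, hx2 ha2⟩ ⟨y, hn, hU2⟩

/-- Decomposed families are of bounded class. -/
theorem CDon.bounded {W : Type w} [MetricSpace W] {O : ℕ → W → Set W} {K : Type v}
    {H : K → Set W} (hOo : ∀ n x, IsOpen (O n x))
    (hOd : ∀ n, Pairwise (fun x y => Disjoint (O n x) (O n y))) (h : CDon O H Set.univ)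
    {β : Ordinal.{0}} (hβ : β < ω₁) (hH : ∀ b, Sg β (H b)) :
    ∃ α : Ordinal.{0}, α < ω₁ ∧ ∀ E : Set K, Sg α (⋃ c ∈ E, H c) := by
  obtain ⟨Z, hZ1, hZ2⟩ := h.toZ hOo hOd
  have h2 : (1 : Ordinal.{0}) + 1 < ω₁ := add_one_lt_w1 one_lt_w1
  refine ⟨max β (1 + 1), max_lt hβ h2, fun E => ?_⟩
  have hm1 : (1 : Ordinal.{0}) ≤ max β (1 + 1) := le_trans (by simp) (le_max_right _ _)
  choose ε hε hZ3 using hZ2
  have key : (⋃ c ∈ E, H c) = ⋃ n : ℕ, ⋃ c ∈ E,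
      (⋃ y ∈ Z n c, Metric.ball y (ε n / 2)) ∩ (H c ∩ closure (Z n c)) := by
    ext y
    simp only [mem_iUnion, mem_inter_iff, exists_prop]
    constructor
    · rintro ⟨c, hc, hy⟩
      have h3 := hy
      rw [hZ1 c, mem_iUnion] at h3
      obtain ⟨n, hn⟩ := h3
      exact ⟨n, c, hc, ⟨y, hn, Metric.mem_ball_self (half_pos (hε n))⟩, hy, subset_closure hn⟩
    · rintro ⟨n, c, hc, -, hy, -⟩
      exact ⟨c, hc, hy⟩
  rw [key]
  refine Sg.iUnion_nat fun n => ?_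
  refine Sg.iUnion_disjoint (fun c => isOpen_biUnion fun y _ => Metric.isOpen_ball) ?_ hm1
    (max_lt hβ h2) (fun c _ => ?_)
  · intro c c' hcc
    rw [disjoint_left]
    rintro a ha ha'
    obtain ⟨y, hy, hay⟩ := mem_iUnion₂.1 ha
    obtain ⟨y', hy', hay'⟩ := mem_iUnion₂.1 ha'
    have h3 := hZ3 n c c' hcc y hy y' hy'
    rw [Metric.mem_ball] at hay hay'
    have h4 := dist_triangle_left y y' a
    linarith
  · refine Sg.inter ((hH c).mono (le_max_left _ _)) ?_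
    have h3 : Sg (1 + 1) (closure (Z n c)) := by
      have := (Sg.isOpen (isClosed_closure (s := Z n c)).isOpen_compl).compl
      rwa [compl_compl] at this
    exact h3.mono (le_max_right _ _)

end Pool.Agent.Helper66.AO
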