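import Mathlib

/-!
Point-finite Borel-additive families and decompositions into countably many families each of which
is locally of size at most `μ`.
-/

set_option autoImplicit false

open Set Cardinal

universe w

namespace Pool.Agent.Helper66.AO

/-- Point-finite Borel-additive families: every point is in finitely many members, and the union
of every subfamily is a Borel set. -/
def PointFiniteBorelAdditive {W : Type w} [TopologicalSpace W] (𝒲 : Set (Set W)) : Prop :=
  (∀ y : W, {A : Set W | A ∈ 𝒲 ∧ y ∈ A}.Finite) ∧
    ∀ 𝒱 ⊆ 𝒲, @MeasurableSet W (borel W) (⋃₀ 𝒱)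

/-- A family `𝒲` of subsets of a space is `μ`-decomposable: every member `A` is the union of sets
`Z 0 A, Z 1 A, ...` such that for every `n` every point has an open neighbourhood that meets
`Z n A` for at most `μ` members `A` of `𝒲`. (For `μ = 1`: σ-discretely decomposable.) -/
def Decomposable {W : Type w} [TopologicalSpace W] (μ : Cardinal.{w}) (𝒲 : Set (Set W)) : Prop :=
  ∃ Z : ℕ → Set W → Set W, (∀ A ∈ 𝒲, A = ⋃ n, Z n A) ∧
    ∀ n, ∀ y : W, ∃ U : Set W, IsOpen U ∧ y ∈ U ∧
      #{A : Set W | A ∈ 𝒲 ∧ (Z n A ∩ U).Nonempty} ≤ μ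

end Pool.Agent.Helper66.AO
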