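import Mathlib
import Pool.Agent.Helper66.AO.Dec
import Pool.Agent.Helper66.AO.GapDefs

/-!
Decompositions into countably many families each of which is locally of size at most `μ`.
-/

set_option autoImplicit false

open Set Cardinal Ordinal TopologicalSpace

universe u v w

namespace Pool.Agent.Helper66.AO

open Pool.Agent.Helper66.PF

theorem Decomposable.mono {W : Type w} [TopologicalSpace W] {μ ν : Cardinal.{w}}
    {𝒲 : Set (Set W)} (h : Decomposable μ 𝒲) (hμ : μ ≤ ν) : Decomposable ν 𝒲 := by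
  obtain ⟨Z, h1, h2⟩ := h
  refine ⟨Z, h1, fun n y => ?_⟩
  obtain ⟨U, h3, h4, h5⟩ := h2 n y
  exact ⟨U, h3, h4, h5.trans hμ⟩

theorem SigmaDiscretelyDecomposable.dec {W : Type w} [TopologicalSpace W] {μ : Cardinal.{w}}
    {𝒲 : Set (Set W)} (h : SigmaDiscretelyDecomposable 𝒲) (hμ : 1 ≤ μ) : Decomposable μ 𝒲 := by
  obtain ⟨Z, h1, h2⟩ := h
  refine ⟨Z, h1, fun n y => ?_⟩
  obtain ⟨U, h3, h4, h5⟩ := h2 n y
  refine ⟨U, h3, h4, le_trans ?_ hμ⟩
  rw [Cardinal.mk_le_one_iff_set_subsingleton]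
  rintro A ⟨hA, hA'⟩ B ⟨hB, hB'⟩
  exact h5 A hA B hB hA' hB'

theorem Decomposable.of_card {W : Type w} [TopologicalSpace W] {μ : Cardinal.{w}}
    {𝒲 : Set (Set W)} (h : #𝒲 ≤ μ) : Decomposable μ 𝒲 := by
  refine ⟨fun _ A => A, fun A _ => (iUnion_const A).symm, fun n y => ⟨Set.univ, isOpen_univ,
    trivial, le_trans (mk_le_mk_of_subset ?_) h⟩⟩
  rintro A ⟨hA, -⟩
  exact hA

/-- The members of the family `H` with indices in `T` are decomposed by sets of at most `μ`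
indices attached to the sets `O n x`. -/
def CDm (μ : Cardinal.{v}) {W : Type w} (O : ℕ → W → Set W) {K : Type v} (H : K → Set W)
    (T : Set K) : Prop :=
  ∃ D : ℕ → W → Set K, (∀ n x, #(D n x) ≤ μ) ∧
    ∀ (y : W), ∀ b ∈ T, y ∈ H b → ∃ n x, y ∈ O n x ∧ b ∈ D n x

theorem mk_iUnion_nat_le {K : Type v} {μ : Cardinal.{v}} (hμ : ℵ₀ ≤ μ) {F : ℕ → Set K}
    (hF : ∀ n, #(F n) ≤ μ) : #(⋃ n, F n : Set K) ≤ μ := by
  have h1 : (⋃ n, F n) = ⋃ n : ULift.{v} ℕ, F n.down := by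
    ext b
    simp only [mem_iUnion]
    constructor
    · rintro ⟨n, hn⟩
      exact ⟨⟨n⟩, hn⟩
    · rintro ⟨n, hn⟩
      exact ⟨n.down, hn⟩
  rw [h1]
  refine (mk_iUnion_le _).trans ?_
  refine (mul_le_mul' (show #(ULift.{v} ℕ) ≤ μ by simpa using hμ)
    (ciSup_le' (fun n : ULift.{v} ℕ => hF n.down))).trans ?_
  exact (mul_eq_self hμ).le

theorem mk_iUnion_card_le {K I : Type v} {μ : Cardinal.{v}} (hμ : ℵ₀ ≤ μ) {F : I → Set K}
    (hI : #I ≤ μ) (hF : ∀ n, #(F n) ≤ μ) : #(⋃ n, F n : Set K) ≤ μ := by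
  refine (mk_iUnion_le _).trans ?_
  refine (mul_le_mul' hI (ciSup_le' fun n => hF n)).trans ?_
  exact (mul_eq_self hμ).le

theorem mk_iUnion_sub_le {K : Type v} {I : Type w} {μ : Cardinal.{v}} [Subsingleton I]
    {F : I → Set K} (hF : ∀ n, #(F n) ≤ μ) : #(⋃ n, F n : Set K) ≤ μ := by
  rcases isEmpty_or_nonempty I with h | ⟨⟨i⟩⟩
  · rw [iUnion_of_empty]
    simp
  · have : (⋃ n, F n) = F i := by
      ext b
      simp only [mem_iUnion]
      constructor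
      · rintro ⟨n, hn⟩
        rwa [Subsingleton.elim i n]
      · intro hb
        exact ⟨i, hb⟩
    rw [this]
    exact hF i

theorem dec_of_cdm {W : Type w} [MetricSpace W] {O : ℕ → W → Set W} {μ : Cardinal.{w}}
    (hμ : ℵ₀ ≤ μ) (hOo : ∀ n x, IsOpen (O n x))
    (hOd : ∀ n, Pairwise (fun x y => Disjoint (O n x) (O n y)))
    {𝒲 : Set (Set W)} (h : CDm μ O (fun A : 𝒲 => (A : Set W)) Set.univ) :
    Decomposable μ 𝒲 := by
  obtain ⟨D, hD, hRb⟩ := h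
  obtain ⟨Z, hZ⟩ : ∃ Z : ℕ × ℕ → Set W → Set W, Z = fun p A =>
      {y | ∃ hA : A ∈ 𝒲, y ∈ A ∧ ∃ x, y ∈ O p.1 x ∧ (⟨A, hA⟩ : 𝒲) ∈ D p.1 x ∧
        Metric.ball y (1 / ((p.2 : ℝ) + 1)) ⊆ O p.1 x} := ⟨_, rfl⟩
  refine ⟨fun n A => Z ((Denumerable.eqv (ℕ × ℕ)).symm n) A, fun A hA => ?_, fun n y₀ => ?_⟩
  · ext y
    simp only [mem_iUnion]
    constructor
    · intro hy
      obtain ⟨n, x, hx, hR'⟩ := hRb y ⟨A, hA⟩ trivial hy
      obtain ⟨ε, hε, hb⟩ := Metric.isOpen_iff.1 (hOo n x) y hx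
      obtain ⟨k, hk⟩ := exists_nat_one_div_lt hε
      refine ⟨Denumerable.eqv (ℕ × ℕ) (n, k), ?_⟩
      rw [Equiv.symm_apply_apply, hZ]
      exact ⟨hA, hy, x, hx, hR', (Metric.ball_subset_ball hk.le).trans hb⟩
    · rintro ⟨n, hn⟩
      rw [hZ] at hn
      exact hn.2.1
  · obtain ⟨p, hp⟩ : ∃ p, p = (Denumerable.eqv (ℕ × ℕ)).symm n := ⟨_, rfl⟩
    have hδ : (0 : ℝ) < 1 / ((p.2 : ℝ) + 1) := by positivity
    refine ⟨Metric.ball y₀ ((1 / ((p.2 : ℝ) + 1)) / 2), Metric.isOpen_ball,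
      Metric.mem_ball_self (half_pos hδ), ?_⟩
    simp only [← hp]
    rcases eq_empty_or_nonempty {A : Set W | A ∈ 𝒲 ∧
      (Z p A ∩ Metric.ball y₀ ((1 / ((p.2 : ℝ) + 1)) / 2)).Nonempty} with h1 | ⟨A₁, hA₁, y₁, hy₁, hy₁'⟩
    · rw [h1]
      simp
    · rw [hZ] at hy₁
      obtain ⟨hA₁', hy₁A, x₁, hx₁, hx₁', hx₁''⟩ := hy₁
      refine le_trans (mk_le_mk_of_subset (t := Subtype.val '' D p.1 x₁) ?_)
        (mk_image_le.trans (hD p.1 x₁))
      rintro A ⟨hA, y, hy, hy'⟩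
      rw [hZ] at hy
      obtain ⟨hA', hyA, x, hx, hx', hx''⟩ := hy
      have h3 : y ∈ O p.1 x₁ := by
        apply hx₁''
        rw [Metric.mem_ball] at hy₁' hy' ⊢
        have := dist_triangle_right y y₁ y₀
        linarith
      have h4 : x = x₁ := card_le (hOd p.1) hx h3
      subst h4
      exact ⟨⟨A, hA'⟩, hx', rfl⟩

theorem cdm_of_dec {W : Type u} [MetricSpace W] {O : ℕ → W → Set W} {μ : Cardinal.{u}}
    (hμ : ℵ₀ ≤ μ)
    (hOb : ∀ (y : W) (U : Set W), IsOpen U → y ∈ U → ∃ n x, y ∈ O n x ∧ O n x ⊆ U)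
    {K : Type u} {H : K → Set W} (hfin : ∀ y, {b | y ∈ H b}.Finite) {T : Set K}
    (h : Decomposable μ (H '' T)) : CDm μ O H T := by
  obtain ⟨Z, hZ1, hZ2⟩ := h
  refine ⟨fun m x => {b | b ∈ T ∧ (H b).Nonempty ∧ ∃ n, (Z n (H b) ∩ O m x).Nonempty ∧
    #{A : Set W | A ∈ H '' T ∧ (Z n A ∩ O m x).Nonempty} ≤ μ}, fun m x => ?_, ?_⟩
  · have h1 : {b | b ∈ T ∧ (H b).Nonempty ∧ ∃ n, (Z n (H b) ∩ O m x).Nonempty ∧
        #{A : Set W | A ∈ H '' T ∧ (Z n A ∩ O m x).Nonempty} ≤ μ} ⊆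
        ⋃ n, {b | b ∈ T ∧ (H b).Nonempty ∧ (Z n (H b) ∩ O m x).Nonempty ∧
        #{A : Set W | A ∈ H '' T ∧ (Z n A ∩ O m x).Nonempty} ≤ μ} := by
      rintro b ⟨h1, h2, n, h3, h4⟩
      exact mem_iUnion.2 ⟨n, h1, h2, h3, h4⟩
    refine (mk_le_mk_of_subset h1).trans (mk_iUnion_nat_le hμ fun n => ?_)
    by_cases hn : #{A : Set W | A ∈ H '' T ∧ (Z n A ∩ O m x).Nonempty} ≤ μ
    · refine le_trans (mk_le_mk_mul_of_mk_preimage_le (c := ℵ₀)
        (fun b : {b | b ∈ T ∧ (H b).Nonempty ∧ (Z n (H b) ∩ O m x).Nonempty ∧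
        #{A : Set W | A ∈ H '' T ∧ (Z n A ∩ O m x).Nonempty} ≤ μ} =>
        (⟨H b.1, ⟨b.1, b.2.1, rfl⟩, b.2.2.2.1⟩ :
          {A : Set W | A ∈ H '' T ∧ (Z n A ∩ O m x).Nonempty})) ?_) ?_
      · rintro ⟨A, hA⟩
        rw [mk_le_aleph0_iff]
        have h2 : ((fun b : {b | b ∈ T ∧ (H b).Nonempty ∧ (Z n (H b) ∩ O m x).Nonempty ∧
            #{A : Set W | A ∈ H '' T ∧ (Z n A ∩ O m x).Nonempty} ≤ μ} =>
            (⟨H b.1, ⟨b.1, b.2.1, rfl⟩, b.2.2.2.1⟩ :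
            {A : Set W | A ∈ H '' T ∧ (Z n A ∩ O m x).Nonempty})) ⁻¹' {⟨A, hA⟩}).Finite := by
          rcases eq_empty_or_nonempty A with h3 | ⟨y, hy⟩
          · refine Set.finite_empty.subset ?_
            rintro ⟨b, hb⟩ hb'
            have h4 : H b = A := congrArg Subtype.val hb'
            rw [h3] at h4
            exact absurd h4 hb.2.1.ne_empty
          · refine ((hfin y).preimage (f := fun b : {b | b ∈ T ∧ (H b).Nonempty ∧
              (Z n (H b) ∩ O m x).Nonempty ∧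
              #{A : Set W | A ∈ H '' T ∧ (Z n A ∩ O m x).Nonempty} ≤ μ} => b.1)
              Subtype.val_injective.injOn).subset ?_
            rintro ⟨b, hb⟩ hb'
            have h4 : H b = A := congrArg Subtype.val hb'
            change y ∈ H b
            rw [h4]
            exact hy
        exact h2.countable.to_subtype
      · refine (mul_le_mul' hn hμ).trans ?_
        exact (mul_eq_self hμ).le
    · have h2 : {b | b ∈ T ∧ (H b).Nonempty ∧ (Z n (H b) ∩ O m x).Nonempty ∧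
          #{A : Set W | A ∈ H '' T ∧ (Z n A ∩ O m x).Nonempty} ≤ μ} = ∅ := by
        ext b
        simp only [mem_ofPred_eq, mem_empty_iff_false, iff_false]
        rintro ⟨-, -, -, h3⟩
        exact hn h3
      rw [h2]
      simp
  · intro y b hb hy
    have h1 : H b = ⋃ n, Z n (H b) := hZ1 (H b) ⟨b, hb, rfl⟩
    have h2 := hy
    rw [h1, mem_iUnion] at h2
    obtain ⟨n, hn⟩ := h2
    obtain ⟨U, hU1, hU2, hU3⟩ := hZ2 n y
    obtain ⟨m, x, hx1, hx2⟩ := hOb y U hU1 hU2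
    refine ⟨m, x, hx1, hb, ⟨y, hy⟩, n, ⟨y, hn, hx1⟩, (mk_le_mk_of_subset ?_).trans hU3⟩
    rintro A ⟨hA, a, ha1, ha2⟩
    exact ⟨hA, a, ha1, hx2 ha2⟩

/-- For infinite families in metric spaces `1` may be replaced by `ℵ₀`. -/
theorem sdd_of_dec {W : Type u} [MetricSpace W] {𝒲 : Set (Set W)}
    (hfin : ∀ y : W, {A : Set W | A ∈ 𝒲 ∧ y ∈ A}.Finite) (h : Decomposable ℵ₀ 𝒲) :
    SigmaDiscretelyDecomposable 𝒲 := by
  obtain ⟨O, hO1, hO2, hO3⟩ := Pool.Agent.Helper52.Tame.exists_sigma_disjoint_base W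
  have h1 : CDm ℵ₀ O (fun A : 𝒲 => (A : Set W)) Set.univ := by
    refine cdm_of_dec le_rfl hO3 (fun y => ?_) (by rwa [image_univ, Subtype.range_coe])
    refine ((hfin y).preimage (f := (Subtype.val : 𝒲 → Set W))
      Subtype.val_injective.injOn).subset ?_
    intro A hA
    exact ⟨A.2, hA⟩
  obtain ⟨D, hD, hD'⟩ := h1
  exact sdd_of_cd hO1 hO2 ⟨D, fun n x => by
    have := hD n x
    rwa [mk_le_aleph0_iff, countable_coe_iff] at this, hD'⟩

end Pool.Agent.Helper66.AO
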