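import Mathlib
import Pool.Agent.Helper66.AO.Mu

/-!
Compactness of `μ`-decomposability at quasi-measurable cardinals above `μ`, and merging.
-/

set_option autoImplicit false

open Set Cardinal Ordinal TopologicalSpace

universe u v w

namespace Pool.Agent.Helper66.AO

open Pool.Agent.Helper66.PF

/-- `μ`-decomposability of a family of quasi-measurable size follows from `μ`-decomposability of
its initial segments. -/
theorem compact_mu {κ μ : Cardinal.{u}} (hκ : QuasiMeasurable κ) (hμ : ℵ₀ ≤ μ) (hμκ : μ < κ)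
    {W : Type w} {O : ℕ → W → Set W}
    (hOd : ∀ n, Pairwise (fun x y => Disjoint (O n x) (O n y))) {H : κ.ord.ToType → Set W}
    (h : ∀ l, CDm μ O H (Iio l)) : CDm μ O H Set.univ := by
  obtain ⟨hκ0, K, I, hK, mono, add, single, univ', sat⟩ := hκ
  have hI : SatIdeal I := satIdeal_of hκ0 mono add single univ' sat
  obtain ⟨e⟩ : Nonempty (K ≃ κ.ord.ToType) := Cardinal.eq.1 (by rw [hK, mk_ord_toType])
  have hsmall : ∀ A : Set K, #A < κ → A ∈ I := by
    intro A hA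
    have : A = ⋃₀ ((fun a => ({a} : Set K)) '' A) := by
      ext a; simp
    rw [this]
    refine add _ ?_ (mk_image_le.trans_lt hA)
    rintro _ ⟨a, -, rfl⟩
    exact single a
  choose D hD1 hD2 using h
  have h1 : ∀ l n x, ∃ f : κ.ord.ToType → μ.ord.ToType, InjOn f (D l n x) := by
    intro l n x
    have h0 : Nonempty μ.ord.ToType := by
      rw [← Cardinal.mk_ne_zero_iff, mk_ord_toType]
      exact (Cardinal.aleph0_pos.trans_le hμ).ne'
    have h2 : #(D l n x) ≤ #μ.ord.ToType := by rw [mk_ord_toType]; exact hD1 l n x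
    obtain ⟨g⟩ := h2
    classical
    refine ⟨fun b => if hb : b ∈ D l n x then g ⟨b, hb⟩ else Classical.arbitrary _, ?_⟩
    intro b hb b' hb' hbb
    simp only [dif_pos hb, dif_pos hb'] at hbb
    exact congrArg Subtype.val (g.injective hbb)
  choose f hf using h1
  refine ⟨fun n x => {b | ∃ k, {a : K | b ∈ D (e a) n x ∧ f (e a) n x b = k} ∉ I},
    fun n x => ?_, ?_⟩
  · have h2 : {b | ∃ k, {a : K | b ∈ D (e a) n x ∧ f (e a) n x b = k} ∉ I} =
        ⋃ k, {b | {a : K | b ∈ D (e a) n x ∧ f (e a) n x b = k} ∉ I} := by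
      ext b
      simp only [mem_ofPred_eq, mem_iUnion]
    beta_reduce
    rw [h2]
    refine mk_iUnion_card_le hμ (by rw [mk_ord_toType]) fun k => ?_
    refine le_trans ?_ hμ
    rw [mk_le_aleph0_iff, countable_coe_iff]
    refine hI.sat' (A := fun b => {a : K | b ∈ D (e a) n x ∧ f (e a) n x b = k})
      (fun b hb => hb) ?_
    intro b _ b' _ hbb
    rw [disjoint_left]
    rintro a ⟨ha1, ha2⟩ ⟨ha1', ha2'⟩
    exact hbb (hf (e a) n x ha1 ha1' (ha2.trans ha2'.symm))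
  · intro y b _ hy
    by_contra hcon
    push Not at hcon
    have h3 : ∀ n, ∀ x : {x // y ∈ O n x}, ∀ k,
        {a : K | b ∈ D (e a) n x ∧ f (e a) n x b = k} ∈ I := by
      intro n x k
      by_contra h4
      exact hcon n x x.2 ⟨k, h4⟩
    have h4 : (⋃ n, ⋃ x : {x // y ∈ O n x}, ⋃ k,
        {a : K | b ∈ D (e a) n x ∧ f (e a) n x b = k}) ∈ I := by
      refine hI.iUnion fun n => ?_
      have hsub : Subsingleton {x // y ∈ O n x} :=
        ⟨fun a b => Subtype.ext (card_le (hOd n) a.2 b.2)⟩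
      refine hI.iUnion fun x => ?_
      rw [← sUnion_range]
      refine add _ ?_ (mk_range_le.trans_lt (by rw [mk_ord_toType]; exact hμκ))
      rintro _ ⟨k, rfl⟩
      exact h3 n x k
    have h5 : {a : K | e a ≤ b} ∈ I := by
      apply hsmall
      have : {a : K | e a ≤ b} = e ⁻¹' (Iic b) := rfl
      rw [this, Cardinal.mk_preimage_equiv]
      exact mk_Iic_lt' hκ0.le b
    apply univ'
    refine mono _ (hI.union h4 h5) _ ?_
    intro a _
    rcases le_or_gt (e a) b with h6 | h6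
    · exact Or.inr h6
    · left
      obtain ⟨n, x, hx, hbx⟩ := hD2 (e a) y b h6 hy
      simp only [mem_iUnion]
      exact ⟨n, ⟨x, hx⟩, _, hbx, rfl⟩

/-- `μ`-decomposability of a family from that of the family of the unions of the classes
of a partition and of the classes. -/
theorem cdm_merge {μ : Cardinal.{u}} (hμ : ℵ₀ ≤ μ) {W : Type u} [TopologicalSpace W]
    {O : ℕ → W → Set W}
    (hOo : ∀ n x, IsOpen (O n x)) (hOd : ∀ n, Pairwise (fun x y => Disjoint (O n x) (O n y)))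
    (hOb : ∀ (y : W) (U : Set W), IsOpen U → y ∈ U → ∃ n x, y ∈ O n x ∧ O n x ⊆ U)
    {K : Type u} {C : Type u} {H : K → Set W} {T : Set K} (p : K → C) {S : Set C}
    (hp : ∀ b ∈ T, p b ∈ S) (h1 : CDm μ O (fun c => ⋃ b ∈ {b | b ∈ T ∧ p b = c}, H b) S)
    (h2 : ∀ c ∈ S, CDm μ O H {b | b ∈ T ∧ p b = c}) : CDm μ O H T := by
  obtain ⟨D, hD1, hD2⟩ := h1
  have h2' : ∀ c, ∃ D' : ℕ → W → Set K, (∀ n x, #(D' n x) ≤ μ) ∧ (c ∈ S →
      ∀ y, ∀ b ∈ {b | b ∈ T ∧ p b = c}, y ∈ H b → ∃ n x, y ∈ O n x ∧ b ∈ D' n x) := by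
    intro c
    by_cases hc : c ∈ S
    · obtain ⟨D', h3, h4⟩ := h2 c hc
      exact ⟨D', h3, fun _ => h4⟩
    · exact ⟨fun _ _ => ∅, fun _ _ => by simp, fun h => absurd h hc⟩
  choose D' hD1' hD2' using h2'
  refine ⟨fun k z => {b | (O k z).Nonempty ∧ ∃ m x m' x', O k z ⊆ O m x ∧ O k z ⊆ O m' x' ∧
    p b ∈ D m x ∧ b ∈ D' (p b) m' x'}, fun k z => ?_, ?_⟩
  · rcases eq_empty_or_nonempty (O k z) with h3 | ⟨y, hy⟩
    · have : {b | (O k z).Nonempty ∧ ∃ m x m' x', O k z ⊆ O m x ∧ O k z ⊆ O m' x' ∧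
          p b ∈ D m x ∧ b ∈ D' (p b) m' x'} = ∅ := by
        ext b
        simp [h3]
      beta_reduce
      rw [this]
      simp
    · have hsub : ∀ m, Subsingleton {x // O k z ⊆ O m x} := fun m =>
        ⟨fun a b => Subtype.ext (card_le (hOd m) (a.2 hy) (b.2 hy))⟩
      have h4 : #(⋃ m, ⋃ x : {x // O k z ⊆ O m x}, ⋃ m', ⋃ x' : {x // O k z ⊆ O m' x},
          ⋃ c : D m x, D' c m' x' : Set K) ≤ μ :=
        mk_iUnion_nat_le hμ fun m => mk_iUnion_sub_le fun x => mk_iUnion_nat_le hμ fun m' =>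
          mk_iUnion_sub_le fun x' => mk_iUnion_card_le hμ (hD1 m x) fun c => hD1' c m' x'
      refine (mk_le_mk_of_subset ?_).trans h4
      rintro b ⟨-, m, x, m', x', h5, h6, h7, h8⟩
      simp only [mem_iUnion]
      exact ⟨m, ⟨x, h5⟩, m', ⟨x', h6⟩, ⟨p b, h7⟩, h8⟩
  · intro y b hb hy
    obtain ⟨m, x, hx, hbx⟩ := hD2 y (p b) (hp b hb) (mem_iUnion₂.2 ⟨b, ⟨hb, rfl⟩, hy⟩)
    obtain ⟨m', x', hx', hbx'⟩ := hD2' (p b) (hp b hb) y b ⟨hb, rfl⟩ hy
    obtain ⟨k, z, hz1, hz2⟩ := hOb y (O m x ∩ O m' x') ((hOo m x).inter (hOo m' x')) ⟨hx, hx'⟩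
    exact ⟨k, z, hz1, ⟨y, hz1⟩, m, x, m', x', hz2.trans inter_subset_left,
      hz2.trans inter_subset_right, hbx, hbx'⟩

end Pool.Agent.Helper66.AO
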