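import Mathlib
import Pool.Agent.Helper66.AO.MuComp

/-!
The least number of members of a point-finite Borel-additive family that is not `μ`-decomposable.
-/

set_option autoImplicit false

open Set Cardinal Ordinal TopologicalSpace

universe u v w

namespace Pool.Agent.Helper66.AO

open Pool.Agent.Helper66.PF

/-- Some point-finite Borel-additive family of exactly `τ` subsets of `X` is not
`μ`-decomposable. -/
def HasIndecomposable (μ : Cardinal.{u}) (X : Type u) [MetricSpace X] (τ : Cardinal.{u}) : Prop :=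
  ∃ 𝒲 : Set (Set X), #𝒲 = τ ∧ (∀ y : X, {A : Set X | A ∈ 𝒲 ∧ y ∈ A}.Finite) ∧
    (∀ 𝒱 ⊆ 𝒲, @MeasurableSet X (borel X) (⋃₀ 𝒱)) ∧ ¬ Decomposable μ 𝒲

theorem cdm_of_card {X : Type u} [MetricSpace X] {O : ℕ → X → Set X} {μ : Cardinal.{u}}
    (hμ : ℵ₀ ≤ μ)
    (hOb : ∀ (y : X) (U : Set X), IsOpen U → y ∈ U → ∃ n x, y ∈ O n x ∧ O n x ⊆ U)
    {τ : Cardinal.{u}} (hτ : ∀ σ < τ, ¬ HasIndecomposable μ X σ) {K : Type u} {H : K → Set X}
    (hH : PFB H) {T : Set K} (hT : #T < τ) : CDm μ O H T := by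
  apply cdm_of_dec hμ hOb hH.fin
  by_contra hcon
  refine hτ #(H '' T) (mk_image_le.trans_lt hT) ⟨H '' T, rfl, fun y => ?_, fun 𝒱 h𝒱 => ?_, hcon⟩
  · refine ((hH.fin y).image H).subset ?_
    rintro A ⟨⟨b, -, rfl⟩, hy⟩
    exact ⟨b, hy, rfl⟩
  · have h1 : ⋃₀ 𝒱 = ⋃ b ∈ {b | b ∈ T ∧ H b ∈ 𝒱}, H b := by
      ext y
      simp only [mem_sUnion, mem_iUnion, mem_ofPred_eq, exists_prop]
      constructor
      · rintro ⟨A, hA, hy⟩
        obtain ⟨b, hb, rfl⟩ := h𝒱 hA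
        exact ⟨b, ⟨hb, hA⟩, hy⟩
      · rintro ⟨b, ⟨-, hb⟩, hy⟩
        exact ⟨H b, hb, hy⟩
    rw [h1]
    exact hH.meas _

theorem pfb_merge {X : Type u} [MetricSpace X] {K : Type v} {H : K → Set X} (hH : PFB H)
    {C : Type w} (p : K → C) (T : Set K) :
    PFB (fun c => ⋃ b ∈ {b | b ∈ T ∧ p b = c}, H b) := by
  refine ⟨fun x => ?_, fun E => ?_⟩
  · refine ((hH.fin x).image p).subset ?_
    intro c hc
    obtain ⟨b, ⟨-, hb⟩, hx⟩ := mem_iUnion₂.1 hc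
    exact ⟨b, hx, hb⟩
  · have h1 : (⋃ c ∈ E, ⋃ b ∈ {b | b ∈ T ∧ p b = c}, H b) =
        ⋃ b ∈ {b | b ∈ T ∧ p b ∈ E}, H b := by
      ext y
      simp only [mem_iUnion, mem_ofPred_eq, exists_prop]
      constructor
      · rintro ⟨c, hc, b, ⟨hb, rfl⟩, hy⟩
        exact ⟨b, ⟨hb, hc⟩, hy⟩
      · rintro ⟨b, ⟨hb, hc⟩, hy⟩
        exact ⟨p b, hc, b, ⟨hb, rfl⟩, hy⟩
    rw [h1]
    exact hH.meas _

/-- The least cardinality of an indecomposable family is regular. -/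
theorem regular_of_min {X : Type u} [MetricSpace X] {μ τ : Cardinal.{u}} (hμ : ℵ₀ ≤ μ)
    (h0 : ℵ₀ ≤ τ)
    (hτ : HasIndecomposable μ X τ) (hmin : ∀ σ < τ, ¬ HasIndecomposable μ X σ) :
    τ.IsRegular := by
  refine ⟨h0, ?_⟩
  by_contra hcof
  rw [not_le] at hcof
  obtain ⟨𝒲, hcard, hfin, hadd, hnot⟩ := hτ
  obtain ⟨O, hO1, hO2, hO3⟩ := Pool.Agent.Helper52.Tame.exists_sigma_disjoint_base X
  have hcof' : Order.cof τ.ord.ToType < τ := by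
    rw [Ordinal.cof_toType]; exact hcof
  obtain ⟨S, hS, hS'⟩ := Order.exists_cof_eq τ.ord.ToType
  obtain ⟨e⟩ : Nonempty (𝒲 ≃ τ.ord.ToType) := Cardinal.eq.1 (by rw [hcard, mk_ord_toType])
  have hp : ∀ A : 𝒲, ∃ c ∈ S, e A ≤ c := fun A => hS (e A)
  choose p hpS hpe using hp
  have hPFB := pfb_of_sets 𝒲 hfin hadd
  apply hnot
  apply dec_of_cdm hμ hO1 hO2
  refine cdm_merge hμ hO1 hO2 hO3 p (S := S) (fun b _ => hpS b) ?_ ?_
  · exact cdm_of_card hμ hO3 hmin (pfb_merge hPFB p Set.univ) (by rw [hS']; exact hcof')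
  · intro c _
    refine cdm_of_card hμ hO3 hmin hPFB ?_
    have h1 : {b : 𝒲 | b ∈ Set.univ ∧ p b = c} ⊆ e ⁻¹' (Iic c) := by
      rintro b ⟨-, rfl⟩
      exact hpe b
    refine (mk_le_mk_of_subset h1).trans_lt ?_
    rw [Cardinal.mk_preimage_equiv]
    exact mk_Iic_lt' h0 c

/-- The bound for families that are `μ`-decomposed and all of whose parts of size at most `μ` are
of bounded class. -/
theorem cdm_bounded {X : Type u} [MetricSpace X] {κ μ : Cardinal.{u}} (hκ : QuasiMeasurable κ)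
    (hμκ : μ < κ) {B : κ.ord.ToType → Set X}
    (hsm : ∀ S : Set κ.ord.ToType, #S < κ →
        ∃ α : Ordinal.{0}, α < ω₁ ∧ ∀ E ⊆ S, Sg α (⋃ c ∈ E, B c)) {O : ℕ → X → Set X}
    (hOo : ∀ n x, IsOpen (O n x))
    (hOd : ∀ n, Pairwise (fun x y => Disjoint (O n x) (O n y)))
    (h : CDm μ O B Set.univ) :
    ∃ α : Ordinal.{0}, α < ω₁ ∧ ∀ E : Set κ.ord.ToType, Sg α (⋃ c ∈ E, B c) := by
  have h0 : ∃ β : Ordinal.{0}, β < ω₁ ∧ ∀ S : Set κ.ord.ToType, #S ≤ μ →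
      Sg β (⋃ c ∈ S, B c) := by
    by_contra hcon
    push Not at hcon
    have h1 : ∀ j : (ω₁ : Ordinal.{0}).ToType, ∃ S : Set κ.ord.ToType, #S ≤ μ ∧
        ¬ Sg (ToType.toOrd j : Ordinal.{0}) (⋃ c ∈ S, B c) :=
      fun j => hcon _ (ToType.toOrd j).2
    choose S hS1 hS2 using h1
    have h2 : #(⋃₀ range S : Set κ.ord.ToType) < κ := by
      refine (mk_sUnion_le _).trans_lt ?_
      refine mul_lt_of_lt hκ.1.le ?_ ?_
      · exact (Pool.Agent.Helper52.Tame.mk_range_w1_le S).trans_lt hκ.aleph_one_lt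
      · refine lt_of_le_of_lt (ciSup_le' ?_) hμκ
        rintro ⟨_, j, rfl⟩
        exact hS1 j
    obtain ⟨α, hα, h3⟩ := hsm _ h2
    apply hS2 (ToType.mk ⟨α, hα⟩)
    have h4 := h3 (S (ToType.mk ⟨α, hα⟩)) (subset_sUnion_of_mem (mem_range_self _))
    simpa using h4
  obtain ⟨β, hβ, hβ'⟩ := h0
  obtain ⟨D, hD, hD'⟩ := h
  have hβ1 : 1 ≤ β := (hβ' ∅ (by simp)).one_le
  refine ⟨β, hβ, fun E => ?_⟩
  have h1 : (⋃ c ∈ E, B c) = ⋃ n : ℕ, ⋃ x ∈ (Set.univ : Set X),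
      O n x ∩ ⋃ c ∈ E ∩ D n x, B c := by
    ext y
    simp only [mem_iUnion, mem_inter_iff, exists_prop, mem_univ, true_and]
    constructor
    · rintro ⟨c, hc, hy⟩
      obtain ⟨n, x, hx1, hx2⟩ := hD' y c trivial hy
      exact ⟨n, x, hx1, c, ⟨hc, hx2⟩, hy⟩
    · rintro ⟨n, x, hx, c, ⟨hc, hx2⟩, hy⟩
      exact ⟨c, hc, hy⟩
  rw [h1]
  exact Sg.iUnion_nat fun n => Sg.iUnion_disjoint (hOo n) (hOd n) hβ1 hβ
    (fun x _ => hβ' _ ((mk_le_mk_of_subset inter_subset_right).trans (hD n x)))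

theorem gap_mu {X : Type u} [MetricSpace X] {ι : Type u} {F : ι → Set X} (hF : PFB F)
    (h : ¬ ∃ α : Ordinal.{0}, α < ω₁ ∧ ∀ T : Set ι, Sg α (⋃ i ∈ T, F i)) :
    ∃ κ : Cardinal.{u}, QuasiMeasurable κ ∧ κ ≤ #ι ∧ κ ≤ 𝔠 ∧
      (∀ D : Set X, Dense D → κ < #D) ∧ ∀ μ < κ, ℵ₀ ≤ μ → ∃ τ : Cardinal.{u}, τ.IsRegular ∧
        μ < τ ∧ ℵ₁ < τ ∧ τ < κ ∧ HasIndecomposable μ X τ ∧
        ∀ σ < τ, ¬ HasIndecomposable μ X σ := by
  obtain ⟨κ, B, r, hκ, hκι, hκc, hdens, hr, hB, hB', hsm⟩ := exists_small' hF h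
  refine ⟨κ, hκ, hκι, hκc, hdens, fun μ hμκ hμ => ?_⟩
  obtain ⟨O, hO1, hO2, hO3⟩ := Pool.Agent.Helper52.Tame.exists_sigma_disjoint_base X
  have h1 : ∃ σ < κ, HasIndecomposable μ X σ := by
    by_contra hcon
    push Not at hcon
    apply hB'
    refine cdm_bounded hκ hμκ hsm hO1 hO2 (compact_mu hκ hμ hμκ hO2 fun l => ?_)
    exact cdm_of_card hμ hO3 hcon hB (by simpa using mk_Iio_lt l)
  obtain ⟨σ, hσ, hσ'⟩ := h1
  have h2 : HasIndecomposable μ X (sInf {σ | HasIndecomposable μ X σ}) :=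
    csInf_mem (s := {σ | HasIndecomposable μ X σ}) ⟨σ, hσ'⟩
  have h3 : ∀ σ < sInf {σ | HasIndecomposable μ X σ}, ¬ HasIndecomposable μ X σ := by
    intro σ hσ hσ'
    exact absurd (csInf_le' (show σ ∈ {σ | HasIndecomposable μ X σ} from hσ')) (not_le.2 hσ)
  have h5 : μ < sInf {σ | HasIndecomposable μ X σ} := by
    by_contra hcon
    rw [not_lt] at hcon
    obtain ⟨𝒲, hcard, hfin, hadd, hnot⟩ := h2
    exact hnot (Decomposable.of_card (hcard.le.trans hcon))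
  have h4 : ℵ₁ < sInf {σ | HasIndecomposable μ X σ} := by
    by_contra hcon
    rw [not_lt] at hcon
    obtain ⟨𝒲, hcard, hfin, hadd, hnot⟩ := h2
    apply hnot
    refine SigmaDiscretelyDecomposable.dec ?_ (one_le_aleph0.trans hμ)
    obtain ⟨Z, hZ1, hZ2⟩ := main hF h (hcard.le.trans hcon) (pfb_of_sets 𝒲 hfin hadd)
    classical
    refine ⟨fun n A => if hA : A ∈ 𝒲 then Z n ⟨A, hA⟩ else ∅, fun A hA => ?_, fun n y => ?_⟩
    · have h1 := hZ1 ⟨A, hA⟩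
      simp only [hA, dif_pos]
      exact h1
    · obtain ⟨ε, hε, h1⟩ := hZ2 n
      refine ⟨Metric.ball y (ε / 2), Metric.isOpen_ball, Metric.mem_ball_self (half_pos hε), ?_⟩
      rintro A hA B hB ⟨a, ha1, ha2⟩ ⟨b, hb1, hb2⟩
      simp only [dif_pos hA] at ha1
      simp only [dif_pos hB] at hb1
      by_contra hne
      have h2 := h1 ⟨A, hA⟩ ⟨B, hB⟩ (fun h => hne (congrArg Subtype.val h)) a ha1 b hb1
      rw [Metric.mem_ball] at ha2 hb2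
      have h3 := dist_triangle_right a b y
      linarith
  exact ⟨_, regular_of_min hμ ((aleph0_lt_aleph_one.trans h4).le) h2 h3, h5, h4,
    (csInf_le' (show σ ∈ {σ | HasIndecomposable μ X σ} from hσ')).trans_lt hσ, h2, h3⟩

end Pool.Agent.Helper66.AO
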