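import Mathlib
import Pool.Agent.Helper66.AO.MuGap

/-!
The theorem for families of sets, with any hierarchy satisfying the usual equations.
-/

set_option autoImplicit false

open Set Cardinal Ordinal TopologicalSpace

universe u v w

namespace Pool.Agent.Helper66.AO

open Pool.Agent.Helper66.PF

theorem final_mu (X : Type u) [MetricSpace X] (𝒳 : Set (Set X))
    (h𝒳 : PointFiniteBorelAdditive 𝒳)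
    (S : Ordinal.{0} → Set (Set X)) (hS1 : S 1 = {U : Set X | IsOpen U})
    (hS2 : ∀ α : Ordinal.{0}, 1 < α → α < (Cardinal.aleph 1).ord →
        S α = {A : Set X | ∃ f : ℕ → Set X, A = (⋃ n, f n) ∧
          ∀ n, ∃ β : Ordinal.{0}, 1 ≤ β ∧ β < α ∧ (f n)ᶜ ∈ S β}) :
    (∃ α : Ordinal.{0}, 1 ≤ α ∧ α < (Cardinal.aleph 1).ord ∧ ∀ 𝒴 ⊆ 𝒳, ⋃₀ 𝒴 ∈ S α) ∨
    ∃ κ : Cardinal.{u}, QuasiMeasurable κ ∧ κ ≤ #𝒳 ∧ κ ≤ 𝔠 ∧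
      (∀ D : Set X, Dense D → κ < #D) ∧
      ∀ μ : Cardinal.{u}, 1 ≤ μ → μ < κ → ∃ τ : Cardinal.{u}, τ.IsRegular ∧ μ < τ ∧
        ℵ₁ < τ ∧ τ < κ ∧
        (∃ 𝒲 : Set (Set X), PointFiniteBorelAdditive 𝒲 ∧ #𝒲 = τ ∧ ¬ Decomposable μ 𝒲) ∧
        ∀ 𝒲 : Set (Set X), PointFiniteBorelAdditive 𝒲 → #𝒲 < τ → Decomposable μ 𝒲 := by
  have hF := pfb_of_sets 𝒳 h𝒳.1 h𝒳.2
  by_cases hb : ∃ α : Ordinal.{0}, α < ω₁ ∧ ∀ T : Set 𝒳, Sg α (⋃ i ∈ T, (i : Set X))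
  · left
    obtain ⟨α, hα, h⟩ := hb
    have hα' : α < (Cardinal.aleph 1).ord := by simpa using hα
    refine ⟨α, (h ∅).one_le, hα', fun 𝒴 h𝒴 => ?_⟩
    rw [eq_sg S hS1 hS2 α (h ∅).one_le hα']
    have h5 := h (Subtype.val ⁻¹' 𝒴)
    have h6 : (⋃ i ∈ (Subtype.val ⁻¹' 𝒴 : Set 𝒳), (i : Set X)) = ⋃₀ 𝒴 := by
      ext x
      simp only [mem_iUnion, mem_preimage, exists_prop, mem_sUnion]
      constructor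
      · rintro ⟨A, hA, hx⟩
        exact ⟨A, hA, hx⟩
      · rintro ⟨A, hA, hx⟩
        exact ⟨⟨A, h𝒴 hA⟩, hA, hx⟩
    rwa [h6] at h5
  · right
    obtain ⟨κ, hκ, hκι, hκc, hdens, hgap⟩ := gap_mu hF hb
    refine ⟨κ, hκ, hκι, hκc, hdens, fun μ hμ1 hμκ => ?_⟩
    have hnot : ∀ (ν : Cardinal.{u}) (σ : Cardinal.{u}), ¬ HasIndecomposable ν X σ →
        ∀ 𝒲 : Set (Set X), PointFiniteBorelAdditive 𝒲 → #𝒲 = σ → Decomposable ν 𝒲 := by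
      intro ν σ hσ 𝒲 h𝒲 hcard
      by_contra hcon
      exact hσ ⟨𝒲, hcard, h𝒲.1, h𝒲.2, hcon⟩
    rcases le_or_gt ℵ₀ μ with hμ | hμ
    · obtain ⟨τ, h1, h2, h3, h4, ⟨𝒲, h5, h6, h7, h8⟩, h9⟩ := hgap μ hμκ hμ
      exact ⟨τ, h1, h2, h3, h4, ⟨𝒲, ⟨h6, h7⟩, h5, h8⟩, fun 𝒱 h𝒱 hcard =>
        hnot μ _ (h9 _ hcard) 𝒱 h𝒱 rfl⟩
    · obtain ⟨τ, h1, h2, h3, h4, ⟨𝒲, h5, h6, h7, h8⟩, h9⟩ := hgap ℵ₀ hκ.1 le_rfl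
      exact ⟨τ, h1, hμ.trans h2, h3, h4, ⟨𝒲, ⟨h6, h7⟩, h5, fun h => h8 (h.mono hμ.le)⟩,
        fun 𝒱 h𝒱 hcard => (sdd_of_dec h𝒱.1 (hnot ℵ₀ _ (h9 _ hcard) 𝒱 h𝒱 rfl)).dec hμ1⟩

end Pool.Agent.Helper66.AO
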